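import Pool.Agent.Lib.MP_c7af3c_ag.T2C.IfaceB
import Pool.Agent.Lib.MP_c7af3c_ag.T2.H44.Norm2

/-!
# MP_c7af3c_ag, project T2C, row NORM2: two lines, the point on one of them (helper44)
-/

set_option autoImplicit false

namespace Pool.Agent.T2C.H44

open MvPolynomial Pool.Agent.Gen Pool.Agent.Sharp Pool.Agent.Edge
open Pool.Agent.T2 (mulS)

/-- Row NORM2 in every degree `r + 2 ≥ 3`. -/
theorem norm2 : NormeStatement (X 0 * X 2) := by
  intro K _ _ _ r f _ hf hc hz M hM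
  have hq : MvPolynomial.map (Int.castRingHom K) (X 0 * X 2 : MvPolynomial (Fin 3) ℤ) =
      X 0 * X 2 := by
    rw [map_mul, map_X, map_X]
  rw [hq] at hM hz ⊢
  obtain ⟨g, f0, a, b, hg, ha, -, h1, h2, h3, -⟩ := T2.H44.norm2e (d := r) hf hc
    (hz (X 2) (isHomogeneous_X K 2) (X_ne_zero 2) (Dvd.intro_left _ rfl))
    (hz (X 0) (isHomogeneous_X K 0) (X_ne_zero 0) (Dvd.intro _ rfl)) hM.two hM.fy
    hM.fq hM.ff
  refine ⟨g, f0, ![1, 0, 0], a, b, hg, ha, ?_, ?_, ?_⟩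
  · rw [hq]
    exact h1
  · rw [hq]
    exact h2
  · intro j
    rw [h3 j, Fin.sum_univ_three]
    simp

end Pool.Agent.T2C.H44
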