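import Pool.Agent.Lib.MP_c7af3c_ag.T2C.H44.N233
import Pool.Agent.Lib.MP_c7af3c_ag.T2C.H44.Norm2
import Pool.Agent.Lib.MP_c7af3c_ag.T2C.H12.Norm1
import Pool.Agent.Lib.MP_c7af3c_ag.T2C.H80.Norm3
import Pool.Agent.Lib.MP_c7af3c_ag.T2C.H80.Norm4
import Pool.Agent.Lib.MP_c7af3c_ag.T2C.H32.NormOne
import Pool.Agent.Lib.MP_c7af3c_ag.T2.H8.Qcl

/-!
# MP_c7af3c_ag, project T2C, row N233 (helper44)
-/

set_option autoImplicit false

namespace Pool.Agent.T2C.H44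

/-- Row N233: type (2, 3, 3). -/
theorem n233 : N233Statement :=
  n233_of T2.H8.qcl H32.normone H12.norm1 norm2 H80.norm3 H80.norm4

end Pool.Agent.T2C.H44
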