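import Pool.Agent.Lib.MP_c7af3c_ag.T2C.H51.Stm
import Pool.Agent.Lib.MP_c7af3c_ag.T2C.H49.Nopl
import Pool.Agent.Lib.MP_c7af3c_ag.T2.H54.Basic

/-!
# MP_c7af3c_ag, project T2C: row Q25, sub-row E (helper44)
The point lies on no conic over `k` in a plane over `k`.
-/

set_option autoImplicit false

namespace Pool.Agent.T2C.H44

open MvPolynomial Pool.Agent.Gen Pool.Agent.Sharp Pool.Agent.Edge
open Pool.Agent.T2 (Sizes Sit)
open Pool.Agent.Edge.H65 (ssub ssub_hom)

section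

variable {Ω : Type} [Field Ω] {k : Subfield Ω} {Γ : Type} [LinearOrderedCommGroupWithZero Γ]
  {S : Sizes Ω k Γ} {n c : ℕ} {d : Fin c → ℕ} {D : DSys Ω n c d} {x : Fin (n + 1) → Ω}
  {t : Fin 3 → Fin (n + 1)} {P : Fin 3 → Fin (n + 1) → Ω}

/-- the point is on no line over `k` -/
theorem no_line (h : Sit S D x (t 0)) (xP : ∀ f, x f = ∑ i, P i f * x (t i))
    (hP : ∀ i f, P i f ∈ k)
    (a : Fin 3 → Ω) (ha : ∀ i, a i ∈ k) (h0 : ∑ i, a i * x (t i) = 0) : a = 0 := by
  by_contra hne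
  obtain ⟨j, hj⟩ := Function.ne_iff.1 hne
  rw [Pi.zero_apply] at hj
  have key : ∀ (j i l : Fin 3), (∀ f : Fin 3 → Ω, ∑ q, f q = f j + f i + f l) → a j ≠ 0 →
      False := by
    intro j i l hs hj
    rw [hs] at h0
    refine h.nl (fun f => P i f - a i / a j * P j f) (fun f => P l f - a l / a j * P j f)
      (fun f => k.sub_mem (hP i f) (k.mul_mem (k.div_mem (ha i) (ha j)) (hP j f)))
      (fun f => k.sub_mem (hP l f) (k.mul_mem (k.div_mem (ha l) (ha j)) (hP j f)))
      (x (t i)) (x (t l)) ?_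
    funext f
    rw [xP f, hs]
    simp only [Pi.add_apply, Pi.smul_apply, smul_eq_mul]
    field_simp
    linear_combination P j f * h0
  fin_cases j
  · exact key 0 1 2 (fun f => by rw [Fin.sum_univ_three]) hj
  · exact key 1 0 2 (fun f => by rw [Fin.sum_univ_three]; ring) hj
  · exact key 2 0 1 (fun f => by rw [Fin.sum_univ_three]; ring) hj

/-- the frame is independent -/
theorem li_frame (hP : ∀ i j, P i (t j) = if i = j then 1 else 0) : LinearIndependent Ω P := by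
  rw [Fintype.linearIndependent_iff]
  intro g hg i
  have h5 := congrFun hg (t i)
  rw [Finset.sum_apply, Pi.zero_apply, Finset.sum_eq_single i] at h5
  · rw [Pi.smul_apply, hP, if_pos rfl, smul_eq_mul, mul_one] at h5
    exact h5
  · intro j _ hj
    rw [Pi.smul_apply, hP, if_neg hj, smul_zero]
  · exact fun h => absurd (Finset.mem_univ _) h

end

/-- Row Q25, sub-row E, for every type. -/
theorem no_conic {Ω : Type} [Field Ω] {k : Subfield Ω} {Γ : Type}
    [LinearOrderedCommGroupWithZero Γ] {S : Sizes Ω k Γ} {n c : ℕ} {d : Fin c → ℕ}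
    {D : DSys Ω n c d} {x : Fin (n + 1) → Ω} {t : Fin 3 → Fin (n + 1)}
    {P : Fin 3 → Fin (n + 1) → Ω} (hT : Ty n c d) (h : Sit S D x (t 0)) (hp : Pl D x t P)
    (hP : ∀ i f, P i f ∈ k) {C : MvPolynomial (Fin 3) Ω} (hC : C.IsHomogeneous 2)
    (hCk : ∀ I, coeff I C ∈ k) (hC0 : C ≠ 0) : eval (fun i => x (t i)) C ≠ 0 := by
  intro he
  obtain ⟨e, g, g1, g2, g3, g4, g5, g6⟩ := H12.clos h.kalg (fun i => x (t i))
    (fun b hb hb0 => no_line h hp.xP hP b hb hb0) hC hCk hC0 he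
  have he2 : e = 2 := by
    obtain ⟨q, -, -, -, h2⟩ := g6 2 C hC hCk he
    have := h2 hC0
    omega
  subst he2
  have hx : x = fun f => ∑ i, P i f * x (t i) := funext hp.xP
  have hev : ∀ m, eval (fun i => x (t i)) (ssub P (D.F m)) = 0 := fun m => by
    rw [H49.eval_ssub, ← hx]
    exact h.h0 m
  obtain rfl := hT.hn
  refine H2.nocurve D (li_frame hp.Pt) (e := 2) (by norm_num) g1 g4
    (H49.num2 hT.two hT.sum) fun m => ?_
  obtain ⟨q, -, -, h2, -⟩ := g6 (d m) _ (ssub_hom P (D.hom m)) (H49.ssub_mem hP (h.kF m)) (hev m)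
  exact ⟨q, h2⟩

/-- Row Q25, sub-row E. -/
theorem q25e : Q25.EStatement := by
  intro Ω _ _ k Γ _ S n d D x t P hT h hp hP C hC hCk hC0
  exact no_conic hT h hp hP hC hCk hC0

end Pool.Agent.T2C.H44
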