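import Pool.Agent.Lib.MP_c7af3c_ag.T2C.H44.Trans
import Pool.Agent.Lib.MP_c7af3c_ag.T2C.H59.Nquad
import Pool.Agent.Lib.MP_c7af3c_ag.EDGE.C2.H59.Nofc

/-!
# MP_c7af3c_ag, project T2C: counts for the normal forms (helper44)
* `le_pr`: `dim V + 2 ≤ dim pr_L M` if the matrices `Λ a`, `a ∈ V`, act injectively on `f`
  modulo `q` (extracted from helper59's Nquad.lean).
* `hasCfg_one`: the rank one case, from NORMONE: all components but one are multiples of `q`, and
  the two components of the largest degree are equal.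
-/

set_option autoImplicit false

namespace Pool.Agent.T2C.H44

open MvPolynomial Pool.Agent.Gen Pool.Agent.Sharp Pool.Agent.Edge
open Pool.Agent.Sharp.H75 (dco DG af Tup Hom)
open Pool.Agent.Edge.H65 (ssub)
open Pool.Agent.T2C.H8
open Pool.Agent.T2 (S3 mulS mem_mulS QclStatement)
open Pool.Agent.T2C.H59 (finite_BF Gq finrank_Gq)

section

variable {K : Type} [Field K] {c : ℕ} {d : Fin c → ℕ}

/-- the projection of the pairs to the matrices `L` -/
noncomputable def prL (M : Submodule K ((Fin 3 → Fin 3 → K) × (Fin c → Fin c →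
    MvPolynomial (Fin 3) K))) : Submodule K (Fin 3 → Fin 3 → K) :=
  M.map (LinearMap.fst K _ _)

theorem mem_prL {M : Submodule K ((Fin 3 → Fin 3 → K) × (Fin c → Fin c →
    MvPolynomial (Fin 3) K))} {L : Fin 3 → Fin 3 → K} : L ∈ prL M ↔ ∃ B, (L, B) ∈ M := by
  constructor
  · rintro ⟨⟨L', B⟩, h, rfl⟩
    exact ⟨B, h⟩
  · rintro ⟨B, h⟩
    exact ⟨(L, B), h, rfl⟩

theorem le_pr {q : MvPolynomial (Fin 3) K} {f : T3 K c} {y : Fin 3 → K}
    {M : Submodule K ((Fin 3 → Fin 3 → K) × (Fin c → Fin c → MvPolynomial (Fin 3) K))}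
    (hM : Stb d q f y M) {V : Type} [AddCommGroup V] [Module K V] [FiniteDimensional K V]
    (Λ : V →ₗ[K] (Fin c → Fin c → MvPolynomial (Fin 3) K))
    (hΛ : ∀ a, Λ a ∈ BF K (Fin 3) d)
    (h0 : ∀ a, bmul (Λ a) f ∈ mulC q (fun m => d m - 2) → a = 0) :
    Module.finrank K V + 2 ≤ Module.finrank K (prL M) := by
  have hΛM : ∀ a, ((0 : Fin 3 → Fin 3 → K), Λ a) ∈ M → a = 0 := by
    intro a ha
    refine h0 a ?_
    have h1 := hM.ff _ ha
    have h3 : (fun m => af (0 : Fin 3 → Fin 3 → K) (f m)) = (0 : T3 K c) := by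
      funext m
      unfold af H75.lf
      simp
    change (fun m => af (0 : Fin 3 → Fin 3 → K) (f m)) + bmul (Λ a) f ∈ _ at h1
    rwa [h3, zero_add] at h1
  have := finite_BF (K := K) (Fin 3) d
  set M0 : Submodule K (Fin c → Fin c → MvPolynomial (Fin 3) K) :=
    M.comap (LinearMap.inr K (Fin 3 → Fin 3 → K) _) with hM0
  have hM0BF : M0 ≤ BF K (Fin 3) d := fun B hB => hM.bf _ hB
  have : FiniteDimensional K M0 := Submodule.finiteDimensional_of_le hM0BF
  have k1 : Module.finrank K M0 + Module.finrank K V ≤ Module.finrank K (BF K (Fin 3) d) := by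
    let ψ : (M0 × V) →ₗ[K] BF K (Fin 3) d :=
      LinearMap.codRestrict (BF K (Fin 3) d)
        ((M0.subtype.comp (LinearMap.fst K _ _)) + (Λ.comp (LinearMap.snd K _ _)))
        fun a => add_mem (hM0BF a.1.2) (hΛ a.2)
    have hψ : Function.Injective ψ := by
      rw [← LinearMap.ker_eq_bot, LinearMap.ker_eq_bot']
      rintro ⟨B, a⟩ h
      have h1 : (B : Fin c → Fin c → MvPolynomial (Fin 3) K) + Λ a = 0 :=
        congrArg Subtype.val h
      have h2 : Λ a ∈ M0 := by
        rw [← neg_eq_of_add_eq_zero_right h1]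
        exact neg_mem B.2
      have h3 := hΛM a h2
      rw [h3, map_zero, add_zero] at h1
      rw [h3, Prod.mk_eq_zero]
      exact ⟨Subtype.ext h1, rfl⟩
    have h4 := LinearMap.finrank_le_finrank_of_injective hψ
    rwa [Module.finrank_prod] at h4
  have hMf : FiniteDimensional K M := by
    have h1 : M ≤ (⊤ : Submodule K (Fin 3 → Fin 3 → K)).prod (BF K (Fin 3) d) :=
      fun a ha => ⟨trivial, hM.bf a ha⟩
    have : FiniteDimensional K
        ((⊤ : Submodule K (Fin 3 → Fin 3 → K)).prod (BF K (Fin 3) d)) :=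
      Module.Finite.iff_fg.2 ((Module.Finite.iff_fg.1 inferInstance).prod
        (Module.Finite.iff_fg.1 inferInstance))
    exact Submodule.finiteDimensional_of_le h1
  have k2 := LinearMap.finrank_range_add_finrank_ker
    ((LinearMap.fst K (Fin 3 → Fin 3 → K) (Fin c → Fin c → MvPolynomial (Fin 3) K)).domRestrict M)
  have k3 : LinearMap.range ((LinearMap.fst K (Fin 3 → Fin 3 → K)
      (Fin c → Fin c → MvPolynomial (Fin 3) K)).domRestrict M) = prL M :=
    LinearMap.range_domRestrict _ _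
  have k4 : Module.finrank K (LinearMap.ker ((LinearMap.fst K (Fin 3 → Fin 3 → K)
      (Fin c → Fin c → MvPolynomial (Fin 3) K)).domRestrict M)) ≤ Module.finrank K M0 := by
    refine LinearMap.finrank_le_finrank_of_injective
      (f := (((LinearMap.snd K (Fin 3 → Fin 3 → K)
        (Fin c → Fin c → MvPolynomial (Fin 3) K)).comp M.subtype).comp
        (Submodule.subtype _)).codRestrict M0 fun a => ?_) ?_
    · have h1 : (a.1.1).1 = 0 := LinearMap.mem_ker.1 a.2
      have h2 := a.1.2
      change ((0 : Fin 3 → Fin 3 → K), a.1.1.2) ∈ M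
      rw [← h1]
      exact h2
    · intro a b hab
      have h1 : (a.1.1).1 = 0 := LinearMap.mem_ker.1 a.2
      have h2 : (b.1.1).1 = 0 := LinearMap.mem_ker.1 b.2
      have h3 : a.1.1.2 = b.1.1.2 := congrArg Subtype.val hab
      exact Subtype.ext (Subtype.ext (Prod.ext (h1.trans h2.symm) h3))
  have k5 := hM.dim
  rw [k3] at k2
  omega

theorem prL_le {q : MvPolynomial (Fin 3) K} [CharZero K] {f : T3 K c} {y : Fin 3 → K}
    {M : Submodule K ((Fin 3 → Fin 3 → K) × (Fin c → Fin c → MvPolynomial (Fin 3) K))}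
    (hM : Stb d q f y M) : prL M ≤ Gq q y := by
  rintro _ ⟨a, ha, rfl⟩
  exact ⟨hM.fy _ ha, hM.fq _ ha⟩

/-! ### the trivial case -/

theorem one_BF (d : Fin c → ℕ) :
    (fun m m' => if m = m' then 1 else 0 : Fin c → Fin c → MvPolynomial (Fin 3) K) ∈
      BF K (Fin 3) d := by
  intro m m'
  constructor
  · intro _
    change (if m = m' then (1 : MvPolynomial (Fin 3) K) else 0).IsHomogeneous _
    split_ifs with h
    · rw [h, Nat.sub_self]
      exact isHomogeneous_one _ _
    · exact isHomogeneous_zero _ _ _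
  · intro h
    change (if m = m' then (1 : MvPolynomial (Fin 3) K) else 0) = 0
    rw [if_neg]
    rintro rfl
    exact lt_irrefl _ h

theorem one_inv (m m' : Fin c) : ∑ j, (if m = j then 1 else 0 : MvPolynomial (Fin 3) K) *
    (if j = m' then 1 else 0) = if m = m' then 1 else 0 := by
  simp

/-- the configuration with `B = 1` -/
theorem hasCfg_of {q : MvPolynomial (Fin 3) K} {f : T3 K c} {y : Fin 3 → K}
    {g : Fin 3 → Fin 3 → K} {q0 : MvPolynomial (Fin 3) ℤ} {f0 : Fin c → MvPolynomial (Fin 3) ℤ}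
    {y0 : Fin 3 → ℤ} {a b : K} (gi : LinearIndependent K g) (a0 : a ≠ 0)
    (hq : ssub g q = C a * MvPolynomial.map (Int.castRingHom K) q0)
    (hf : ∀ m, ssub g (f m) - MvPolynomial.map (Int.castRingHom K) (f0 m) ∈
      mulS (MvPolynomial.map (Int.castRingHom K) q0) (d m - 2))
    (hy : ∀ j, y j = b * ∑ i, (y0 i : K) * g i j) : HasCfg d q f y := by
  refine ⟨g, fun m m' => if m = m' then 1 else 0, fun m m' => if m = m' then 1 else 0, q0, f0,
    y0, a, b, gi, a0, hq, one_BF d, one_BF d, one_inv, ?_, hy⟩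
  rw [bmul_one (fun _ _ => rfl), mem_mulC_iff]
  exact hf

/-- all components are multiples of the conic -/
theorem hasCfg_zero [CharZero K] [IsAlgClosed K] (hQ : QclStatement)
    {q : MvPolynomial (Fin 3) K} {f : T3 K c} {y : Fin 3 → K} (hN : Nrm d q f y)
    (h0 : ∀ m, f m ∈ mulS q (d m - 2)) : HasCfg d q f y := by
  obtain ⟨g, hg, hyg, a, ha, hc⟩ := hQ K q y hN.hq hN.q0 hN.y0 hN.yq
  have key : ∀ q0 : MvPolynomial (Fin 3) ℤ,
      ssub g q = C a * MvPolynomial.map (Int.castRingHom K) q0 → HasCfg d q f y := by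
    intro q0 hq
    refine hasCfg_of (q0 := q0) (f0 := fun _ => 0) (y0 := ![1, 0, 0]) (b := 1) hg ha hq ?_ ?_
    · intro m
      rw [map_zero, sub_zero, ← mulS_C ha, ← hq]
      exact mulS_ssub g (h0 m)
    · intro j
      rw [hyg, Fin.sum_univ_three]
      simp
  rcases hc with hc | hc | hc | hc
  · exact key (X 0 * X 2 - X 1 ^ 2) (by rw [hc]; simp)
  · exact key (X 0 * X 2) (by rw [hc]; simp)
  · exact key (X 1 * X 2) (by rw [hc]; simp)
  · exact key (X 2 ^ 2) (by rw [hc]; simp)

/-- division by a form -/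
theorem mulS_of_dvd {z G : MvPolynomial (Fin 3) K} {δ r : ℕ} (hz : z.IsHomogeneous δ)
    (hz0 : z ≠ 0) (hG : G.IsHomogeneous (δ + r)) (h : z ∣ G) : G ∈ mulS z r := by
  obtain ⟨A, hA, hA2⟩ := C2.H59.factor_U3 hz hz0 hG h
  rw [H65.U3_pos (Nat.le_add_right _ _), Nat.add_sub_cancel_left] at hA
  exact mem_mulS.2 ⟨A, hA, hA2.symm⟩

/-- scalar matrices -/
theorem af_scal {r : ℕ} {G : MvPolynomial (Fin 3) K} (hG : G.IsHomogeneous r) (s : K) :
    af (fun i j => if i = j then s else 0) G = C (r * s) * G := by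
  have he : ∑ i, X i * pderiv i G = r • G := hG.sum_X_mul_pderiv
  have h1 : af (fun i j => if i = j then s else 0) G = C s * ∑ i, X i * pderiv i G := by
    unfold af
    rw [Finset.mul_sum]
    refine Finset.sum_congr rfl fun p _ => ?_
    rw [← mul_assoc]
    congr 1
    change ∑ q, C (if p = q then s else 0) * X q = _
    rw [Finset.sum_eq_single p]
    · rw [if_pos rfl]
    · intro q _ hq
      rw [if_neg (Ne.symm hq), C_0, zero_mul]
    · intro h
      exact absurd (Finset.mem_univ _) h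
  rw [h1, he, nsmul_eq_mul, C_mul, ← map_natCast C r]
  ring

end

/-! ### the rank one case -/

/-- The configuration if all components but `m0` are multiples of the conic and
`dim pr_L M ≥ 3`, and every `L ∈ pr_L M` satisfies `L f_m0 = b f_m0` modulo `q`. -/
theorem hasCfg_one (hQ : QclStatement) (hO : NormOneStatement)
    (h1 : NormeStatement (X 0 * X 2 - X 1 ^ 2)) (h2 : NormeStatement (X 0 * X 2))
    (h3 : NormeStatement (X 1 * X 2)) (h4 : NormeStatement (X 2 ^ 2))
    {K : Type} [Field K] [CharZero K] [IsAlgClosed K] {c : ℕ} {d : Fin c → ℕ}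
    (hd : ∀ m, 2 ≤ d m) {q : MvPolynomial (Fin 3) K} {f : T3 K c} {y : Fin 3 → K}
    (hN : Nrm d q f y) {M : Submodule K (Fin 3 → Fin 3 → K)} (hM : M ≤ Gq q y)
    (h5 : 3 ≤ Module.finrank K M) {m0 : Fin c} {r : ℕ} (hr : 1 ≤ r) (hm0 : d m0 = r + 2)
    (h0 : ∀ m, m ≠ m0 → f m ∈ mulS q (d m - 2))
    (hb : ∀ L ∈ M, ∃ b : K, af L (f m0) + C b * f m0 ∈ mulS q r) : HasCfg d q f y := by
  have hfm : (f m0).IsHomogeneous (r + 2) := by
    have := hN.hf m0
    rwa [hm0] at this
  -- the matrices which kill `f m0` modulo `q`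
  let M'' : Submodule K (Fin 3 → Fin 3 → K) :=
    { carrier := {L | L ∈ Gq q y ∧ af L (f m0) ∈ mulS q r}
      add_mem' := by
        rintro L L' ⟨hL, hL2⟩ ⟨hL', hL2'⟩
        refine ⟨add_mem hL hL', ?_⟩
        rw [af_add']
        exact add_mem hL2 hL2'
      zero_mem' := by
        refine ⟨zero_mem _, ?_⟩
        have : af (0 : Fin 3 → Fin 3 → K) (f m0) = 0 := by
          unfold af H75.lf
          simp
        rw [this]
        exact zero_mem _
      smul_mem' := by
        rintro a L ⟨hL, hL2⟩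
        refine ⟨Submodule.smul_mem _ a hL, ?_⟩
        rw [af_smul', ← smul_eq_C_mul]
        exact Submodule.smul_mem _ a hL2 }
  have hr2 : ((r + 2 : ℕ) : K) ≠ 0 := by
    exact_mod_cast (by omega : r + 2 ≠ 0)
  have hscal : ∀ s : K, (fun i j => if i = j then s else 0 : Fin 3 → Fin 3 → K) ∈ Gq q y := by
    intro s
    refine ⟨⟨s, fun j => ?_⟩, ⟨2 * s, ?_⟩⟩
    · simp
    · rw [af_scal hN.hq]
      push_cast
      rfl
  -- every element of `M` is an element of `M''` plus a scalar
  have hle : M ≤ M'' ⊔ Submodule.span K {(fun i j => if i = j then 1 else 0 :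
      Fin 3 → Fin 3 → K)} := by
    intro L hL
    obtain ⟨b, hb⟩ := hb L hL
    set s := b / ((r + 2 : ℕ) : K) with hs
    have h6 : L + (fun i j => if i = j then s else 0) ∈ M'' := by
      refine ⟨add_mem (hM hL) (hscal s), ?_⟩
      rw [af_add', af_scal hfm, hs, mul_div_cancel₀ _ hr2]
      exact hb
    have h7 : (fun i j => if i = j then s else 0 : Fin 3 → Fin 3 → K) =
        s • (fun i j => if i = j then 1 else 0) := by
      funext i j
      simp only [Pi.smul_apply, smul_eq_mul, mul_ite, mul_one, mul_zero]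
    have h8 : L = (L + (fun i j => if i = j then s else 0)) +
        (-s) • (fun i j => if i = j then 1 else 0) := by
      rw [h7, neg_smul]
      abel
    rw [h8]
    exact Submodule.add_mem_sup h6 (Submodule.smul_mem _ _ (Submodule.mem_span_singleton_self _))
  have hM2 : 2 ≤ Module.finrank K M'' := by
    have h6 := (Submodule.finrank_mono hle).trans (Submodule.finrank_add_le_finrank_add_finrank _ _)
    have h7 : Module.finrank K (Submodule.span K {(fun i j => if i = j then 1 else 0 :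
        Fin 3 → Fin 3 → K)}) ≤ 1 := by
      have h8 := finrank_span_le_card (R := K) ({(fun i j => if i = j then 1 else 0 :
        Fin 3 → Fin 3 → K)} : Set (Fin 3 → Fin 3 → K))
      simpa using h8
    omega
  have hS : StbE r q (f m0) y M'' := ⟨hM2, fun L hL => hL.1.1, fun L hL => hL.1.2,
    fun L hL => hL.2⟩
  have hz : ∀ z : MvPolynomial (Fin 3) K, z.IsHomogeneous 1 → z ≠ 0 → z ∣ q →
      f m0 ∉ mulS z (r + 1) := by
    intro z hz1 hz0 hzq hm
    refine hN.noln z hz1 hz0 ?_
    rw [mem_mulC_iff]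
    intro m
    by_cases hmm : m = m0
    · rw [hmm, hm0]
      exact hm
    · obtain ⟨b, hb, hb2⟩ := mem_mulS.1 (h0 m hmm)
      have h6 : (f m).IsHomogeneous (1 + (d m - 1)) := by
        have h7 := hN.hf m
        have h8 := hd m
        rwa [show 1 + (d m - 1) = d m by omega]
      refine mulS_of_dvd hz1 hz0 h6 ?_
      rw [← hb2]
      exact Dvd.dvd.mul_right hzq b
  obtain ⟨g, q0, f0, y0, a, b, hC⟩ := hO hQ h1 h2 h3 h4 K r q (f m0) y hr hN.hq hN.q0 hfm hN.y0
    hN.yq (hN.yf m0) hz M'' hS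
  refine hasCfg_of (q0 := q0) (f0 := fun m => if m = m0 then f0 else 0) (y0 := y0) (b := b) hC.gi
    hC.a0 hC.hq ?_ hC.hy
  intro m
  by_cases hmm : m = m0
  · rw [if_pos hmm, hmm, hm0]
    exact hC.hf
  · rw [if_neg hmm, map_zero, sub_zero, ← mulS_C hC.a0, ← hC.hq]
    exact mulS_ssub g (h0 m hmm)

end Pool.Agent.T2C.H44
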