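import Pool.Agent.Lib.MP_c7af3c_ag.T2C.H44.N233a
import Pool.Agent.Lib.MP_c7af3c_ag.T2.H12.Norm1

/-!
# MP_c7af3c_ag, project T2C, row N233: type (2, 3, 3) (helper44)
-/

set_option autoImplicit false

namespace Pool.Agent.T2C.H44

open MvPolynomial Pool.Agent.Gen Pool.Agent.Sharp Pool.Agent.Edge
open Pool.Agent.Sharp.H75 (dco DG af Tup Hom)
open Pool.Agent.Edge.H65 (ssub)
open Pool.Agent.T2C.H8
open Pool.Agent.T2 (S3 mulS mem_mulS QclStatement)
open Pool.Agent.T2.H32 (mm one3)
open Pool.Agent.T2C.H59 (finite_BF Gq finrank_Gq)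

section

variable {K : Type} [Field K]

/-! ### the stabilisers of the conics -/

theorem finrank_le_five {G : Submodule K (Fin 3 → Fin 3 → K)} (s : Fin 5 → Fin 3 × Fin 3)
    (h : ∀ L ∈ G, (∀ i, L (s i).1 (s i).2 = 0) → L = 0) : Module.finrank K G ≤ 5 := by
  let u : G →ₗ[K] (Fin 5 → K) :=
    { toFun := fun L i => L.1 (s i).1 (s i).2
      map_add' := fun _ _ => rfl
      map_smul' := fun _ _ => rfl }
  have hu : Function.Injective u := by
    rw [← LinearMap.ker_eq_bot, LinearMap.ker_eq_bot']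
    intro L hL
    exact Subtype.ext (h L.1 L.2 fun i => congrFun hL i)
  have h1 := LinearMap.finrank_le_finrank_of_injective hu
  rwa [Module.finrank_fin_fun] at h1

theorem five1 [CharZero K] :
    Module.finrank K (Gq (X 0 * X 2 - X 1 ^ 2 : MvPolynomial (Fin 3) K) ![1, 0, 0]) ≤ 5 := by
  refine finrank_le_five ![(0, 0), (1, 1), (1, 2), (0, 0), (0, 0)] ?_
  rintro L ⟨⟨e, he⟩, e', he'⟩ h
  obtain ⟨h10, h20, h02, h21, h01, h22⟩ := T2.H12.entries (c := e') (c' := e) he he'
  have h00 : L 0 0 = 0 := h 0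
  have h11 : L 1 1 = 0 := h 1
  have h12 : L 1 2 = 0 := h 2
  funext i j
  fin_cases i <;> fin_cases j <;> simp [h10, h20, h02, h21, h01, h22, h00, h11, h12]

theorem five2 [CharZero K] :
    Module.finrank K (Gq (X 0 * X 2 : MvPolynomial (Fin 3) K) ![1, 0, 0]) ≤ 5 := by
  refine finrank_le_five ![(0, 0), (1, 1), (1, 2), (2, 2), (0, 0)] ?_
  rintro L ⟨⟨e, he⟩, e', he'⟩ h
  obtain ⟨h10, h20, h01, h02, h21⟩ := T2.H44.entries2 (c := e') (c' := e) he he'
  have h00 : L 0 0 = 0 := h 0
  have h11 : L 1 1 = 0 := h 1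
  have h12 : L 1 2 = 0 := h 2
  have h22 : L 2 2 = 0 := h 3
  funext i j
  fin_cases i <;> fin_cases j <;> simp [h10, h20, h02, h21, h01, h22, h00, h11, h12]

theorem five3 [CharZero K] :
    Module.finrank K (Gq (X 1 * X 2 : MvPolynomial (Fin 3) K) ![1, 0, 0]) ≤ 5 := by
  refine finrank_le_five ![(0, 0), (0, 1), (0, 2), (1, 1), (2, 2)] ?_
  rintro L ⟨⟨e, he⟩, e', he'⟩ h
  have y1 := he 1
  have y2 := he 2
  simp [Fin.sum_univ_three] at y1 y2
  have p0 : pderiv 0 (X 1 * X 2 : MvPolynomial (Fin 3) K) = 0 := by simp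
  have p1 : pderiv 1 (X 1 * X 2 : MvPolynomial (Fin 3) K) = X 2 := by simp
  have p2 : pderiv 2 (X 1 * X 2 : MvPolynomial (Fin 3) K) = X 1 := by simp
  have key : ∀ z : Fin 3 → K, (∑ q, L 1 q * z q) * z 2 + (∑ q, L 2 q * z q) * z 1 =
      e' * (z 1 * z 2) := by
    intro z
    have h := congrArg (eval z) he'
    unfold af Pool.Agent.Sharp.H75.lf at h
    rw [Fin.sum_univ_three, p0, p1, p2] at h
    simp only [map_add, map_mul, map_sum, eval_C, eval_X, map_zero] at h
    linear_combination h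
  have e1 := key ![0, 0, 1]
  have e2 := key ![0, 1, 0]
  simp [Fin.sum_univ_three] at e1 e2
  have h00 : L 0 0 = 0 := h 0
  have h01 : L 0 1 = 0 := h 1
  have h02 : L 0 2 = 0 := h 2
  have h11 : L 1 1 = 0 := h 3
  have h22 : L 2 2 = 0 := h 4
  funext i j
  fin_cases i <;> fin_cases j <;> simp [y1, y2, e1, e2, h22, h00, h11, h01, h02]

/-- the elementary matrices -/
def el (i j : Fin 3) : Fin 3 → Fin 3 → K := fun a b => if a = i ∧ b = j then 1 else 0

theorem af_el (i j : Fin 3) (φ : MvPolynomial (Fin 3) K) : af (el i j) φ = X j * pderiv i φ := by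
  unfold af
  rw [Finset.sum_eq_single i]
  · congr 1
    change ∑ q, C (el i j i q) * X q = X j
    rw [Finset.sum_eq_single j]
    · simp [el]
    · intro q _ hq
      simp [el, hq]
    · intro h
      exact absurd (Finset.mem_univ _) h
  · intro p _ hp
    have : H75.lf (n := 2) (el i j p) = (0 : MvPolynomial (Fin 3) K) := by
      change ∑ q, C (el i j p q) * X q = (0 : MvPolynomial (Fin 3) K)
      refine Finset.sum_eq_zero fun q _ => ?_
      simp [el, hp]
    rw [this, zero_mul]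
  · intro h
    exact absurd (Finset.mem_univ _) h

theorem el_Gq [CharZero K] {i j : Fin 3} (hi : i ≠ 2) (h10 : ¬ (i ≠ 0 ∧ j = 0)) :
    el i j ∈ Gq (X 2 ^ 2 : MvPolynomial (Fin 3) K) ![1, 0, 0] := by
  refine ⟨⟨if i = 0 ∧ j = 0 then 1 else 0, fun a => ?_⟩, 0, ?_⟩
  · rw [Fin.sum_univ_three]
    revert hi h10
    fin_cases i <;> fin_cases j <;> fin_cases a <;> simp [el]
  · rw [af_el]
    have : pderiv i (X 2 ^ 2 : MvPolynomial (Fin 3) K) = 0 := by
      rw [pderiv_pow, pderiv_X_of_ne (Ne.symm hi), mul_zero]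
    rw [this, mul_zero, C_0, zero_mul]

/-! ### the type (2, 3, 3) -/

/-- three different indices -/
structure Ix (d : Fin 3 → ℕ) (m0 m1 m2 : Fin 3) : Prop where
  d0 : d m0 = 2
  d1 : d m1 = 3
  d2 : d m2 = 3
  n01 : m0 ≠ m1
  n02 : m0 ≠ m2
  n12 : m1 ≠ m2

theorem Ix.sum {d : Fin 3 → ℕ} {m0 m1 m2 : Fin 3} (I : Ix d m0 m1 m2) {A : Type}
    [AddCommMonoid A] (F : Fin 3 → A) : ∑ m, F m = F m0 + F m1 + F m2 := by
  have h : (Finset.univ : Finset (Fin 3)) = {m0, m1, m2} := by
    have h01 := I.n01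
    have h02 := I.n02
    have h12 := I.n12
    clear I
    revert m0 m1 m2
    decide
  rw [h, Finset.sum_insert, Finset.sum_insert, Finset.sum_singleton, add_assoc]
  · rw [Finset.mem_singleton]
    exact I.n12
  · rw [Finset.mem_insert, Finset.mem_singleton]
    rintro (h1 | h1)
    · exact I.n01 h1
    · exact I.n02 h1

theorem Ix.cases {d : Fin 3 → ℕ} {m0 m1 m2 : Fin 3} (I : Ix d m0 m1 m2) (m : Fin 3) :
    m = m0 ∨ m = m1 ∨ m = m2 := by
  have h01 := I.n01
  have h02 := I.n02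
  have h12 := I.n12
  clear I
  revert m0 m1 m2 m
  decide

theorem Ix.two {d : Fin 3 → ℕ} {m0 m1 m2 : Fin 3} (I : Ix d m0 m1 m2) (m : Fin 3) : 2 ≤ d m := by
  rcases I.cases m with h | h | h
  · rw [h, I.d0]
  · rw [h, I.d1]
    norm_num
  · rw [h, I.d2]
    norm_num

theorem Ix.symm {d : Fin 3 → ℕ} {m0 m1 m2 : Fin 3} (I : Ix d m0 m1 m2) : Ix d m0 m2 m1 :=
  ⟨I.d0, I.d2, I.d1, I.n02, I.n01, I.n12.symm⟩

/-- the block matrices -/
noncomputable def blk (m0 m1 m2 : Fin 3) (z a b c e : K) : Fin 3 → Fin 3 → MvPolynomial (Fin 3) K :=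
  fun m m' => if m = m0 then (if m' = m0 then C z else 0)
    else if m = m1 then (if m' = m1 then C a else if m' = m2 then C b else 0)
    else (if m' = m1 then C c else if m' = m2 then C e else 0)

theorem blk_BF {d : Fin 3 → ℕ} {m0 m1 m2 : Fin 3} (I : Ix d m0 m1 m2) (z a b c e : K) :
    blk m0 m1 m2 z a b c e ∈ BF K (Fin 3) d := by
  intro m m'
  have h0 := I.d0
  have h1 := I.d1
  have h2 := I.d2
  have h01 := I.n01
  have h02 := I.n02
  have h12 := I.n12
  rcases I.cases m with rfl | rfl | rfl <;> rcases I.cases m' with rfl | rfl | rfl <;>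
    simp only [blk, h0, h1, h2, if_true, if_neg h01, if_neg h02, if_neg h12, if_neg h01.symm,
      if_neg h02.symm, if_neg h12.symm, Nat.sub_self, le_refl, lt_irrefl] <;>
    constructor <;> intro h <;> first
      | exact isHomogeneous_C _ _
      | exact isHomogeneous_zero _ _ _
      | exact False.elim h
      | omega
      | trivial
      | rfl

theorem blk_inv {d : Fin 3 → ℕ} {m0 m1 m2 : Fin 3} (I : Ix d m0 m1 m2) {a b c e a' b' c' e' : K}
    (h11 : a * a' + b * c' = 1) (h12 : a * b' + b * e' = 0) (h21 : c * a' + e * c' = 0)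
    (h22 : c * b' + e * e' = 1) (m m' : Fin 3) :
    ∑ j, blk m0 m1 m2 1 a b c e m j * blk m0 m1 m2 1 a' b' c' e' j m' =
      if m = m' then 1 else 0 := by
  rw [I.sum]
  have g01 := I.n01
  have g02 := I.n02
  have g12 := I.n12
  rcases I.cases m with rfl | rfl | rfl <;> rcases I.cases m' with rfl | rfl | rfl <;>
    simp only [blk, if_true, if_neg g01, if_neg g02, if_neg g12, if_neg g01.symm,
      if_neg g02.symm, if_neg g12.symm, mul_zero, zero_mul, add_zero, zero_add, ← C_mul, ← C_add,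
      h11, h12, h21, h22, C_1, C_0, mul_one]

/-- the rows `m1`, `m2` -/
theorem row {d : Fin 3 → ℕ} {m0 m1 m2 : Fin 3} (I : Ix d m0 m1 m2) {q : MvPolynomial (Fin 3) K}
    {f : T3 K 3} {y : Fin 3 → K}
    {M : Submodule K ((Fin 3 → Fin 3 → K) × (Fin 3 → Fin 3 → MvPolynomial (Fin 3) K))}
    (hM : Stb d q f y M) {e : K} (h0 : f m0 = C e * q) {L : Fin 3 → Fin 3 → K}
    (hL : L ∈ prL M) {m : Fin 3} (hm : d m = 3) :
    ∃ b1 b2 : K, af L (f m) + (C b1 * f m1 + C b2 * f m2) ∈ mulS q 1 := by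
  obtain ⟨B, hB⟩ := mem_prL.1 hL
  have h1 := (mem_mulC_iff.1 (hM.ff _ hB)) m
  have hBF := hM.bf _ hB
  have h2 : (B m m1).IsHomogeneous 0 := by
    have := (hBF m m1).1 (by rw [hm, I.d1])
    rwa [hm, I.d1] at this
  have h3 : (B m m2).IsHomogeneous 0 := by
    have := (hBF m m2).1 (by rw [hm, I.d2])
    rwa [hm, I.d2] at this
  have h4 : (B m m0).IsHomogeneous 1 := by
    have := (hBF m m0).1 (by rw [hm, I.d0]; norm_num)
    rwa [hm, I.d0] at this
  have h2' := totalDegree_eq_zero_iff_eq_C.1 (Nat.le_zero.1 h2.totalDegree_le)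
  have h3' := totalDegree_eq_zero_iff_eq_C.1 (Nat.le_zero.1 h3.totalDegree_le)
  refine ⟨coeff 0 (B m m1), coeff 0 (B m m2), ?_⟩
  have h5 : B m m0 * f m0 ∈ mulS q 1 := by
    rw [h0]
    refine mem_mulS.2 ⟨C e * B m m0, ?_, by ring⟩
    have := (isHomogeneous_C (Fin 3) e).mul h4
    rwa [zero_add] at this
  have h6 : af L (f m) + (B m m0 * f m0 + B m m1 * f m1 + B m m2 * f m2) ∈ mulS q 1 := by
    have h7 : af L (f m) + ∑ m', B m m' * f m' ∈ mulS q (d m - 2) := h1
    rw [I.sum, hm] at h7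
    exact h7
  rw [← h2', ← h3']
  have h7 := sub_mem h6 h5
  have h8 : af L (f m) + (B m m1 * f m1 + B m m2 * f m2) =
      af L (f m) + (B m m0 * f m0 + B m m1 * f m1 + B m m2 * f m2) - B m m0 * f m0 := by ring
  rw [h8]
  exact h7

end

/-- the rank one case -/
theorem n233_one (hQ : QclStatement) (hO : NormOneStatement)
    (h1 : NormeStatement (X 0 * X 2 - X 1 ^ 2)) (h2 : NormeStatement (X 0 * X 2))
    (h3 : NormeStatement (X 1 * X 2)) (h4 : NormeStatement (X 2 ^ 2))
    {K : Type} [Field K] [CharZero K] [IsAlgClosed K] {d : Fin 3 → ℕ} {m0 m1 m2 : Fin 3}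
    (I : Ix d m0 m1 m2) {q : MvPolynomial (Fin 3) K} {f : T3 K 3} {y : Fin 3 → K}
    (hN : Nrm d q f y)
    {M : Submodule K ((Fin 3 → Fin 3 → K) × (Fin 3 → Fin 3 → MvPolynomial (Fin 3) K))}
    (hM : Stb d q f y M) {e : K} (h0 : f m0 = C e * q) (hm2 : f m2 ∈ mulS q 1) :
    HasCfg d q f y := by
  have hf0 : f m0 ∈ mulS q (d m0 - 2) := by
    rw [h0, I.d0]
    exact mem_mulS.2 ⟨C e, isHomogeneous_C _ _, by ring⟩
  by_cases hm1 : f m1 ∈ mulS q 1
  · refine hasCfg_zero hQ hN fun m => ?_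
    rcases I.cases m with rfl | rfl | rfl
    · exact hf0
    · rw [I.d1]
      exact hm1
    · rw [I.d2]
      exact hm2
  · -- the count
    let Λ : K →ₗ[K] (Fin 3 → Fin 3 → MvPolynomial (Fin 3) K) :=
      { toFun := fun b => blk m0 m1 m2 0 b 0 0 0
        map_add' := fun a b => by
          funext m m'
          simp only [blk, Pi.add_apply]
          split_ifs <;> simp
        map_smul' := fun a b => by
          funext m m'
          simp only [blk, Pi.smul_apply, RingHom.id_apply]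
          split_ifs <;> simp [smul_eq_C_mul] }
    have hcount : 3 ≤ Module.finrank K (prL M) := by
      have h5 := le_pr hM Λ (fun a => blk_BF I _ _ _ _ _) (fun b hb => by
        by_contra hb0
        apply hm1
        have h6 := (mem_mulC_iff.1 hb) m1
        change ∑ m', blk m0 m1 m2 0 b 0 0 0 m1 m' * f m' ∈ _ at h6
        rw [I.sum, I.d1] at h6
        simp only [blk, if_neg I.n01.symm, if_true, if_neg I.n01, if_neg I.n02, if_neg I.n12.symm,
          C_0, zero_mul, zero_add, add_zero, if_neg I.n02.symm] at h6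
        have h7 := (mulS q 1).smul_mem b⁻¹ h6
        rwa [smul_eq_C_mul, ← mul_assoc, ← C_mul, inv_mul_cancel₀ hb0, C_1, one_mul] at h7)
      rwa [Module.finrank_self] at h5
    refine hasCfg_one hQ hO h1 h2 h3 h4 I.two hN (prL_le hM) hcount (m0 := m1) (r := 1) le_rfl
      I.d1 ?_ ?_
    · intro m hm
      rcases I.cases m with rfl | rfl | rfl
      · exact hf0
      · exact absurd rfl hm
      · rw [I.d2]
        exact hm2
    · intro L hL
      obtain ⟨b1, b2, hb⟩ := row I hM h0 hL I.d1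
      refine ⟨b1, ?_⟩
      have h5 := sub_mem hb ((mulS q 1).smul_mem b2 hm2)
      rw [smul_eq_C_mul] at h5
      have h6 : af L (f m1) + C b1 * f m1 =
          af L (f m1) + (C b1 * f m1 + C b2 * f m2) - C b2 * f m2 := by ring
      rw [h6]
      exact h5

/-- the rank two case -/
theorem n233_two {K : Type} [Field K] [CharZero K] {d : Fin 3 → ℕ} {m0 m1 m2 : Fin 3}
    (I : Ix d m0 m1 m2) {q : MvPolynomial (Fin 3) K} {f : T3 K 3}
    (hN : Nrm d q f ![1, 0, 0])
    {M : Submodule K ((Fin 3 → Fin 3 → K) × (Fin 3 → Fin 3 → MvPolynomial (Fin 3) K))}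
    (hM : Stb d q f ![1, 0, 0] M) {e : K} (h0 : f m0 = C e * q)
    (hli : ∀ s t : K, C s * f m1 + C t * f m2 ∈ mulS q 1 → s = 0 ∧ t = 0)
    (hq : q = X 0 * X 2 - X 1 ^ 2 ∨ q = X 0 * X 2 ∨ q = X 1 * X 2 ∨ q = X 2 ^ 2) :
    HasCfg d q f ![1, 0, 0] := by
  -- the count
  let Λ : (Fin 2 → Fin 2 → K) →ₗ[K] (Fin 3 → Fin 3 → MvPolynomial (Fin 3) K) :=
    { toFun := fun b => blk m0 m1 m2 0 (b 0 0) (b 0 1) (b 1 0) (b 1 1)
      map_add' := fun a b => by
        funext m m'
        simp only [blk, Pi.add_apply]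
        split_ifs <;> simp
      map_smul' := fun a b => by
        funext m m'
        simp only [blk, Pi.smul_apply, RingHom.id_apply]
        split_ifs <;> simp [smul_eq_C_mul] }
  have hcount : 6 ≤ Module.finrank K (prL M) := by
    have h5 := le_pr hM Λ (fun a => blk_BF I _ _ _ _ _) (fun b hb => by
      have h6 := (mem_mulC_iff.1 hb) m1
      have h7 := (mem_mulC_iff.1 hb) m2
      change ∑ m', blk m0 m1 m2 0 (b 0 0) (b 0 1) (b 1 0) (b 1 1) m1 m' * f m' ∈ _ at h6
      change ∑ m', blk m0 m1 m2 0 (b 0 0) (b 0 1) (b 1 0) (b 1 1) m2 m' * f m' ∈ _ at h7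
      rw [I.sum, I.d1] at h6
      rw [I.sum, I.d2] at h7
      simp only [blk, if_neg I.n01.symm, if_true, if_neg I.n01, if_neg I.n02, if_neg I.n12.symm,
        zero_mul, zero_add, if_neg I.n02.symm] at h6 h7
      obtain ⟨e1, e2⟩ := hli _ _ h6
      obtain ⟨e3, e4⟩ := hli _ _ h7
      funext i j
      fin_cases i <;> fin_cases j <;> simp [e1, e2, e3, e4])
    have h6 : Module.finrank K (Fin 2 → Fin 2 → K) = 4 := by
      rw [Module.finrank_pi_fintype]
      simp
    rw [h6] at h5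
    exact h5
  have hle := prL_le hM
  have hfin := (Submodule.finrank_mono hle)
  have hq2 : q = X 2 ^ 2 := by
    rcases hq with hq | hq | hq | hq
    · rw [hq] at hfin
      exact absurd ((hcount.trans hfin).trans five1) (by norm_num)
    · rw [hq] at hfin
      exact absurd ((hcount.trans hfin).trans five2) (by norm_num)
    · rw [hq] at hfin
      exact absurd ((hcount.trans hfin).trans five3) (by norm_num)
    · exact hq
  subst hq2
  have hprL : prL M = Gq (X 2 ^ 2 : MvPolynomial (Fin 3) K) ![1, 0, 0] := by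
    exact Submodule.eq_of_le_of_finrank_le hle ((finrank_Gq hN.hq hN.q0 hN.y0).trans hcount)
  -- the plane of pairs
  set u := Ph (f m1) with hu
  set v := Ph (f m2) with hv
  have hf1 : (f m1).IsHomogeneous 3 := by
    have := hN.hf m1
    rwa [I.d1] at this
  have hf2 : (f m2).IsHomogeneous 3 := by
    have := hN.hf m2
    rwa [I.d2] at this
  have hcomb : ∀ s t : K, Ph (C s * f m1 + C t * f m2) = s • u + t • v := by
    intro s t
    rw [map_add, ← smul_eq_C_mul, ← smul_eq_C_mul, map_smul, map_smul]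
  have hhom : ∀ s t : K, (C s * f m1 + C t * f m2).IsHomogeneous (1 + 2) := by
    intro s t
    have h5 := (isHomogeneous_C (Fin 3) s).mul hf1
    have h6 := (isHomogeneous_C (Fin 3) t).mul hf2
    rw [zero_add] at h5 h6
    exact h5.add h6
  have hliuv : LinearIndependent K ![u, v] := by
    rw [LinearIndependent.pair_iff]
    intro s t hst
    rw [← hcomb] at hst
    exact hli s t (mem_of_Ph (hhom s t) hst)
  set W := Submodule.span K (Set.range ![u, v]) with hW
  have hWr : Module.finrank K W = 2 := by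
    rw [hW, finrank_span_eq_card hliuv, Fintype.card_fin]
  have huW : u ∈ W := Submodule.subset_span ⟨0, rfl⟩
  have hvW : v ∈ W := Submodule.subset_span ⟨1, rfl⟩
  have hmem : ∀ w ∈ W, ∃ s t : K, s • u + t • v = w := by
    intro w hw
    rw [hW, Matrix.range_cons, Matrix.range_cons, Matrix.range_empty, Set.union_empty,
      Set.singleton_union, Submodule.mem_span_pair] at hw
    exact hw
  have hstab : ∀ L ∈ Gq (X 2 ^ 2 : MvPolynomial (Fin 3) K) ![1, 0, 0], ∀ m, d m = 3 →
      Ph (af L (f m)) ∈ W := by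
    intro L hL m hm
    rw [← hprL] at hL
    obtain ⟨b1, b2, hb⟩ := row I hM h0 hL hm
    have h5 := Ph_mulS hb
    rw [map_add, hcomb] at h5
    rw [eq_neg_of_add_eq_zero_left h5]
    exact W.neg_mem (W.add_mem (W.smul_mem _ huW) (W.smul_mem _ hvW))
  have hN1 : ∀ w ∈ W, (Polynomial.derivative w.1, Polynomial.derivative w.2) ∈ W := by
    intro w hw
    obtain ⟨s, t, rfl⟩ := hmem w hw
    have h5 := hstab _ (el_Gq (i := 0) (j := 1) (by decide) (by decide)) m1 I.d1
    have h6 := hstab _ (el_Gq (i := 0) (j := 1) (by decide) (by decide)) m2 I.d2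
    rw [af_el, Ph_N1] at h5 h6
    have h7 := W.add_mem (W.smul_mem s h5) (W.smul_mem t h6)
    convert h7 using 1
    refine Prod.ext ?_ ?_
    · simp [u, v]
    · simp [u, v]
  have hE0 : ∀ w ∈ W, (Polynomial.X * Polynomial.derivative w.1,
      Polynomial.X * Polynomial.derivative w.2) ∈ W := by
    intro w hw
    obtain ⟨s, t, rfl⟩ := hmem w hw
    have h5 := hstab _ (el_Gq (i := 0) (j := 0) (by decide) (by decide)) m1 I.d1
    have h6 := hstab _ (el_Gq (i := 0) (j := 0) (by decide) (by decide)) m2 I.d2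
    rw [af_el, Ph_E0] at h5 h6
    have h7 := W.add_mem (W.smul_mem s h5) (W.smul_mem t h6)
    convert h7 using 1
    refine Prod.ext ?_ ?_
    · simp [u, v, mul_add]
    · simp [u, v, mul_add]
  have hN3 : ∀ w ∈ W, ((0 : Polynomial K), Polynomial.C 3 * w.1 -
      Polynomial.X * Polynomial.derivative w.1) ∈ W := by
    intro w hw
    obtain ⟨s, t, rfl⟩ := hmem w hw
    have h5 := hstab _ (el_Gq (i := 1) (j := 2) (by decide) (by decide)) m1 I.d1
    have h6 := hstab _ (el_Gq (i := 1) (j := 2) (by decide) (by decide)) m2 I.d2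
    rw [af_el, Ph_N3 hf1] at h5
    rw [af_el, Ph_N3 hf2] at h6
    have h7 := W.add_mem (W.smul_mem s h5) (W.smul_mem t h6)
    convert h7 using 1
    refine Prod.ext ?_ ?_
    · simp
    · simp only [Prod.fst_add, Prod.smul_fst, Prod.snd_add, Prod.smul_snd, map_add,
        Polynomial.smul_eq_C_mul, Polynomial.derivative_C_mul, u, v]
      ring
  have hne : ∃ w ∈ W, w.1 ≠ 0 := by
    by_contra hn
    push Not at hn
    refine hN.noln (X 2) (isHomogeneous_X K 2) (X_ne_zero 2) ?_
    rw [mem_mulC_iff]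
    intro m
    rcases I.cases m with rfl | rfl | rfl
    · rw [h0, I.d0]
      refine mem_mulS.2 ⟨C e * X 2, ?_, by ring⟩
      have := (isHomogeneous_C (Fin 3) e).mul (isHomogeneous_X K 2)
      rwa [zero_add] at this
    · rw [I.d1]
      exact T2.H44.mem_of_r2 hf1 (hn u huW)
    · rw [I.d2]
      exact T2.H44.mem_of_r2 hf2 (hn v hvW)
  have hfin2 := two_dim W hWr hN1 hN3 hE0 hne
  obtain ⟨a1, c1, hu1⟩ := hfin2 u huW
  obtain ⟨a2, c2, hv1⟩ := hfin2 v hvW
  have hdet : a1 * c2 - a2 * c1 ≠ 0 := by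
    intro hdet
    have h5 : c2 • u + (-c1) • v = 0 := by
      rw [hu1, hv1]
      refine Prod.ext ?_ ?_
      · simp only [Prod.fst_add, Prod.smul_fst, Polynomial.smul_C, smul_eq_mul, ← Polynomial.C_add,
          Prod.fst_zero]
        rw [Polynomial.C_eq_zero]
        linear_combination hdet
      · simp only [Prod.snd_add, Prod.smul_snd, Polynomial.smul_C, smul_eq_mul, ← Polynomial.C_add,
          Prod.snd_zero]
        rw [Polynomial.C_eq_zero]
        ring
    have h6 : a2 • u + (-a1) • v = 0 := by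
      rw [hu1, hv1]
      refine Prod.ext ?_ ?_
      · simp only [Prod.fst_add, Prod.smul_fst, Polynomial.smul_C, smul_eq_mul, ← Polynomial.C_add,
          Prod.fst_zero]
        rw [Polynomial.C_eq_zero]
        ring
      · simp only [Prod.snd_add, Prod.smul_snd, Polynomial.smul_C, smul_eq_mul, ← Polynomial.C_add,
          Prod.snd_zero]
        rw [Polynomial.C_eq_zero]
        linear_combination -hdet
    have h7 := (LinearIndependent.pair_iff.1 hliuv) _ _ h5
    have h8 := (LinearIndependent.pair_iff.1 hliuv) _ _ h6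
    have h9 : u = 0 := by
      rw [hu1, neg_eq_zero.1 h8.2, neg_eq_zero.1 h7.2, Polynomial.C_0]
      rfl
    exact hliuv.ne_zero 0 h9
  have key : ∀ (φ : MvPolynomial (Fin 3) K) (a c : K), φ.IsHomogeneous 3 →
      Ph φ = (Polynomial.C a, Polynomial.C c) →
      φ - (C a * X 1 ^ 3 + C c * (X 1 ^ 2 * X 2)) ∈ mulS (X 2 ^ 2) 1 := by
    intro φ a c hφ h5
    have hh : (C a * X 1 ^ 3 + C c * (X 1 ^ 2 * X 2) : MvPolynomial (Fin 3) K).IsHomogeneous
        (1 + 2) := by
      refine IsHomogeneous.add ?_ ?_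
      · have := (isHomogeneous_C (Fin 3) a).mul ((isHomogeneous_X K (1 : Fin 3)).pow 3)
        rwa [show 0 + 1 * 3 = 1 + 2 by norm_num] at this
      · have := (isHomogeneous_C (Fin 3) c).mul (((isHomogeneous_X K (1 : Fin 3)).pow 2).mul
          (isHomogeneous_X K (2 : Fin 3)))
        rwa [show 0 + (1 * 2 + 1) = 1 + 2 by norm_num] at this
    refine mem_of_Ph (hφ.sub hh) ?_
    rw [map_sub, h5, sub_eq_zero, Ph_apply]
    refine Prod.ext ?_ ?_
    · simp
    · simp
  have k1 := key _ a1 c1 hf1 hu1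
  have k2 := key _ a2 c2 hf2 hv1
  set Dt := a1 * c2 - a2 * c1 with hDt
  have F : Frm (one3 : Fin 3 → Fin 3 → K) one3 ![1, 0, 0] ![1, 0, 0] := by
    have h5 : mm (one3 : Fin 3 → Fin 3 → K) one3 = one3 := by
      funext i j
      unfold mm one3
      simp
    refine ⟨h5, h5, fun j => ?_⟩
    unfold one3
    simp
  refine ⟨one3, blk m0 m1 m2 1 (c2 / Dt) (-c1 / Dt) (-a2 / Dt) (a1 / Dt),
    blk m0 m1 m2 1 a1 c1 a2 c2, X 2 ^ 2,
    fun m => if m = m0 then 0 else if m = m1 then X 1 ^ 3 else X 1 ^ 2 * X 2, ![1, 0, 0], 1, 1,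
    F.li, one_ne_zero, ?_, blk_BF I _ _ _ _ _, blk_BF I _ _ _ _ _, ?_, ?_, ?_⟩
  · rw [T2.H32.ssub_one, C_1, one_mul, map_pow, map_X]
  · refine blk_inv I ?_ ?_ ?_ ?_
    · field_simp
      rw [hDt]
      ring
    · field_simp
      ring
    · field_simp
      ring
    · field_simp
      rw [hDt]
      ring
  · rw [mem_mulC_iff]
    have hq0 : MvPolynomial.map (Int.castRingHom K) (X 2 ^ 2 : MvPolynomial (Fin 3) ℤ) =
        X 2 ^ 2 := by
      rw [map_pow, map_X]
    rw [hq0]
    have hrow : ∀ m, (bmul (blk m0 m1 m2 1 (c2 / Dt) (-c1 / Dt) (-a2 / Dt) (a1 / Dt))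
        (fun m => ssub (one3 : Fin 3 → Fin 3 → K) (f m))) m =
        blk m0 m1 m2 1 (c2 / Dt) (-c1 / Dt) (-a2 / Dt) (a1 / Dt) m m0 * f m0 +
        blk m0 m1 m2 1 (c2 / Dt) (-c1 / Dt) (-a2 / Dt) (a1 / Dt) m m1 * f m1 +
        blk m0 m1 m2 1 (c2 / Dt) (-c1 / Dt) (-a2 / Dt) (a1 / Dt) m m2 * f m2 := by
      intro m
      unfold bmul
      simp only [T2.H32.ssub_one]
      rw [I.sum]
    intro m
    rw [Pi.sub_apply, hrow]
    rcases I.cases m with rfl | rfl | rfl
    · simp only [blk, if_true, if_neg I.n01.symm, if_neg I.n02.symm, map_zero, sub_zero, zero_mul,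
        add_zero, C_1, one_mul, I.d0]
      rw [h0]
      exact mem_mulS.2 ⟨C e, isHomogeneous_C _ _, by ring⟩
    · simp only [blk, if_true, if_neg I.n01.symm, if_neg I.n01, if_neg I.n02, if_neg I.n02.symm,
        if_neg I.n12.symm, zero_mul, zero_add, I.d1, map_pow, map_X]
      have h5 := add_mem ((mulS (X 2 ^ 2 : MvPolynomial (Fin 3) K) 1).smul_mem (c2 / Dt) k1)
        ((mulS (X 2 ^ 2 : MvPolynomial (Fin 3) K) 1).smul_mem (-c1 / Dt) k2)
      rw [smul_eq_C_mul, smul_eq_C_mul] at h5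
      convert h5 using 1
      have e1 : (C (c2 / Dt) * C a1 + C (-c1 / Dt) * C a2 : MvPolynomial (Fin 3) K) = 1 := by
        rw [← C_mul, ← C_mul, ← C_add, ← C_1]
        congr 1
        field_simp
        rw [hDt]
        ring
      have e2 : (C (c2 / Dt) * C c1 + C (-c1 / Dt) * C c2 : MvPolynomial (Fin 3) K) = 0 := by
        rw [← C_mul, ← C_mul, ← C_add, ← C_0]
        congr 1
        field_simp
        ring
      linear_combination (X 1 ^ 3) * e1 + (X 1 ^ 2 * X 2) * e2
    · simp only [blk, if_true, if_neg I.n01.symm, if_neg I.n01, if_neg I.n02, if_neg I.n02.symm,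
        if_neg I.n12.symm, zero_mul, zero_add, I.d2, map_pow, map_X, map_mul]
      have h5 := add_mem ((mulS (X 2 ^ 2 : MvPolynomial (Fin 3) K) 1).smul_mem (-a2 / Dt) k1)
        ((mulS (X 2 ^ 2 : MvPolynomial (Fin 3) K) 1).smul_mem (a1 / Dt) k2)
      rw [smul_eq_C_mul, smul_eq_C_mul] at h5
      convert h5 using 1
      have e1 : (C (-a2 / Dt) * C a1 + C (a1 / Dt) * C a2 : MvPolynomial (Fin 3) K) = 0 := by
        rw [← C_mul, ← C_mul, ← C_add, ← C_0]
        congr 1
        field_simp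
        ring
      have e2 : (C (-a2 / Dt) * C c1 + C (a1 / Dt) * C c2 : MvPolynomial (Fin 3) K) = 1 := by
        rw [← C_mul, ← C_mul, ← C_add, ← C_1]
        congr 1
        field_simp
        rw [hDt]
        ring
      linear_combination (X 1 ^ 3) * e1 + (X 1 ^ 2 * X 2) * e2
  · intro j
    rw [Fin.sum_univ_three]
    unfold one3
    fin_cases j <;> simp

/-- Row N233 from NORMONE. -/
theorem n233_of (hQ : QclStatement) (hO : NormOneStatement)
    (h1 : NormeStatement (X 0 * X 2 - X 1 ^ 2)) (h2 : NormeStatement (X 0 * X 2))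
    (h3 : NormeStatement (X 1 * X 2)) (h4 : NormeStatement (X 2 ^ 2)) : N233Statement := by
  intro _ K _ _ _ d q f y hN M hM m0 m1 m2 d0 d1 d2 n12 hm0
  have I : Ix d m0 m1 m2 := ⟨d0, d1, d2, by
    rintro rfl
    omega, by
    rintro rfl
    omega, n12⟩
  obtain ⟨q0, f', M', hN', hM', hC, -, hCe, hq0⟩ := reduce hQ hN hM
  apply hC
  obtain ⟨e, he⟩ := (hCe m0).2 hm0
  by_cases hli : ∀ s t : K, C s * f' m1 + C t * f' m2 ∈ mulS q0 1 → s = 0 ∧ t = 0
  · exact n233_two I hN' hM' he hli hq0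
  · push Not at hli
    obtain ⟨s, t, hst, hne⟩ := hli
    by_cases ht : t = 0
    · -- `f' m1` is a multiple of the conic
      have hs : s ≠ 0 := fun hs => hne hs ht
      refine n233_one hQ hO h1 h2 h3 h4 I.symm hN' hM' he ?_
      rw [ht, C_0, zero_mul, add_zero] at hst
      have h7 := (mulS q0 1).smul_mem s⁻¹ hst
      rwa [smul_eq_C_mul, ← mul_assoc, ← C_mul, inv_mul_cancel₀ hs, C_1, one_mul] at h7
    · -- change of the equations
      have hB := blk_BF I (K := K) 1 1 0 s t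
      have hB' := blk_BF I (K := K) 1 1 0 (-s / t) (1 / t)
      have hinv := blk_inv I (K := K) (a := 1) (b := 0) (c := -s / t) (e := 1 / t) (a' := 1)
        (b' := 0) (c' := s) (e' := t) (by ring) (by ring) (by field_simp; ring)
        (by field_simp; ring)
      have hN2 := nrm_bm (fun m => (by have := I.two m; omega)) hB hB' hinv hN'
      have hM2 := stb_bm I.two hB hB' hinv hM'
      refine hasCfg_bm hB hB' hinv ?_
      refine n233_one hQ hO h1 h2 h3 h4 I hN2 hM2 (e := e) ?_ ?_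
      · change ∑ m', blk m0 m1 m2 1 1 0 s t m0 m' * f' m' = _
        rw [I.sum]
        simp only [blk, if_true, if_neg I.n01.symm, if_neg I.n02.symm, zero_mul, add_zero, C_1,
          one_mul]
        exact he
      · change ∑ m', blk m0 m1 m2 1 1 0 s t m2 m' * f' m' ∈ _
        rw [I.sum]
        simp only [blk, if_true, if_neg I.n01.symm, if_neg I.n02.symm, if_neg I.n01, if_neg I.n02,
          if_neg I.n12.symm, zero_mul, zero_add]
        exact hst

end Pool.Agent.T2C.H44
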