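import Pool.Agent.Lib.MP_c7af3c_ag.T2C.H44.Cnt
import Pool.Agent.Lib.MP_c7af3c_ag.T2.H44.Norm2

/-!
# MP_c7af3c_ag, project T2C, row N233: the algebra of the rank two case (helper44)
`q = X 2 ^ 2`: a cubic modulo `q` is the pair `(r2 φ, r2 (∂₂ φ))` of polynomials in one variable.
-/

set_option autoImplicit false

namespace Pool.Agent.T2C.H44

open MvPolynomial Pool.Agent.Gen Pool.Agent.Sharp Pool.Agent.Edge
open Pool.Agent.Sharp.H75 (dco DG af Tup Hom)
open Pool.Agent.Edge.H65 (ssub)
open Pool.Agent.T2C.H8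
open Pool.Agent.T2 (S3 mulS mem_mulS QclStatement)
open Pool.Agent.T2C.H59 (finite_BF Gq finrank_Gq)
open Pool.Agent.T2.H44 (r2 r2_X0 r2_X1 r2_X2 r2_C derivative_r2 coeff_r2 mem_mulS_monomial deg3)

/-! ### one variable -/

/-- A plane of pairs of polynomials, stable under three operators. -/
theorem two_dim {K : Type} [Field K] [CharZero K]
    (W : Submodule K (Polynomial K × Polynomial K)) (hW : Module.finrank K W = 2)
    (hN1 : ∀ w ∈ W, (Polynomial.derivative w.1, Polynomial.derivative w.2) ∈ W)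
    (hN3 : ∀ w ∈ W, ((0 : Polynomial K), Polynomial.C 3 * w.1 -
      Polynomial.X * Polynomial.derivative w.1) ∈ W)
    (hE0 : ∀ w ∈ W, (Polynomial.X * Polynomial.derivative w.1,
      Polynomial.X * Polynomial.derivative w.2) ∈ W)
    (hne : ∃ w ∈ W, w.1 ≠ 0) :
    ∀ w ∈ W, ∃ a c : K, w = (Polynomial.C a, Polynomial.C c) := by
  classical
  -- an element with constant first component
  have hmin : ∀ n : ℕ, ∀ w ∈ W, w.1 ≠ 0 → w.1.natDegree = n →
      ∃ (a : K) (C' : Polynomial K), a ≠ 0 ∧ (Polynomial.C a, C') ∈ W := by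
    intro n
    induction n with
    | zero =>
      intro w hw hw0 hn
      have h1 := Polynomial.eq_C_of_natDegree_eq_zero hn
      refine ⟨w.1.coeff 0, w.2, ?_, ?_⟩
      · intro h0
        rw [h0, Polynomial.C_0] at h1
        exact hw0 h1
      · rw [← h1]
        exact hw
    | succ n ih =>
      intro w hw hw0 hn
      refine ih _ (hN1 w hw) ?_ ?_
      · intro h0
        have := Polynomial.derivative_eq_zero.1 h0
        omega
      · change (Polynomial.derivative w.1).natDegree = n
        rw [Polynomial.natDegree_derivative, hn]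
        rfl
  obtain ⟨w, hw, hw0⟩ := hne
  obtain ⟨a, C', ha, hv⟩ := hmin _ w hw hw0 rfl
  have hu : ((0 : Polynomial K), (Polynomial.C (3 * a) : Polynomial K)) ∈ W := by
    have h1 := hN3 _ hv
    simp only [Polynomial.derivative_C, mul_zero, sub_zero, ← Polynomial.C_mul] at h1
    exact h1
  set u : Polynomial K × Polynomial K := (0, Polynomial.C (3 * a)) with hudef
  set v : Polynomial K × Polynomial K := (Polynomial.C a, C') with hvdef
  have h3a : (3 : K) * a ≠ 0 := mul_ne_zero (by norm_num) ha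
  have hli : LinearIndependent K ![u, v] := by
    rw [LinearIndependent.pair_iff]
    intro s t hst
    have h1 := congrArg Prod.fst hst
    have h2 := congrArg Prod.snd hst
    simp only [hudef, hvdef, Prod.fst_add, Prod.smul_fst, Prod.snd_add, Prod.smul_snd,
      Prod.fst_zero, Prod.snd_zero, smul_zero, zero_add, Polynomial.smul_C, smul_eq_mul] at h1 h2
    have h3 : t = 0 := by
      rw [Polynomial.C_eq_zero] at h1
      exact (mul_eq_zero.1 h1).resolve_right ha
    rw [h3, zero_smul, add_zero, Polynomial.C_eq_zero] at h2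
    exact ⟨(mul_eq_zero.1 h2).resolve_right h3a, h3⟩
  have hspan : Submodule.span K (Set.range ![u, v]) = W := by
    have hfin : FiniteDimensional K W := Module.finite_of_finrank_pos (by omega)
    refine Submodule.eq_of_le_of_finrank_le ?_ ?_
    · rw [Submodule.span_le]
      rintro _ ⟨i, rfl⟩
      fin_cases i
      · exact hu
      · exact hv
    · rw [hW, finrank_span_eq_card hli, Fintype.card_fin]
  have hmem : ∀ w ∈ W, ∃ s t : K, s • u + t • v = w := by
    intro w hw
    rw [← hspan, Matrix.range_cons, Matrix.range_cons, Matrix.range_empty, Set.union_empty,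
      Set.singleton_union, Submodule.mem_span_pair] at hw
    exact hw
  -- the second component is constant
  have hC' : ∃ e : K, C' = Polynomial.C e := by
    obtain ⟨s, t, hst⟩ := hmem _ (hE0 _ hv)
    have h1 := congrArg Prod.fst hst
    have h2 := congrArg Prod.snd hst
    simp only [hudef, hvdef, Prod.fst_add, Prod.smul_fst, Prod.snd_add, Prod.smul_snd,
      smul_zero, zero_add, Polynomial.smul_C, smul_eq_mul, Polynomial.derivative_C,
      mul_zero] at h1 h2
    rw [Polynomial.C_eq_zero] at h1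
    have h3 : t = 0 := (mul_eq_zero.1 h1).resolve_right ha
    rw [h3, zero_smul, add_zero] at h2
    have h4 := congrArg (fun p => Polynomial.coeff p 0) h2
    simp only [Polynomial.coeff_C_zero, Polynomial.coeff_X_mul_zero] at h4
    rw [h4, Polynomial.C_0] at h2
    have h5 := (mul_eq_zero.1 h2.symm).resolve_left Polynomial.X_ne_zero
    exact ⟨_, Polynomial.eq_C_of_natDegree_eq_zero
      (Polynomial.derivative_eq_zero.1 h5)⟩
  obtain ⟨e, he⟩ := hC'
  intro w hw
  obtain ⟨s, t, hst⟩ := hmem w hw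
  refine ⟨t * a, s * (3 * a) + t * e, ?_⟩
  rw [← hst, hudef, hvdef, he]
  refine Prod.ext ?_ ?_
  · simp [Polynomial.smul_C]
  · simp only [Prod.snd_add, Prod.smul_snd, Polynomial.smul_C, smul_eq_mul, Polynomial.C_add]

/-! ### cubics modulo `X 2 ^ 2` -/

section

variable {K : Type} [Field K]

/-- a form modulo `X 2 ^ 2` -/
noncomputable def Ph : MvPolynomial (Fin 3) K →ₗ[K] (Polynomial K × Polynomial K) where
  toFun φ := (r2 K φ, r2 K (pderiv 2 φ))
  map_add' φ ψ := by
    rw [map_add, map_add, map_add]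
    rfl
  map_smul' a φ := by
    refine Prod.ext ?_ ?_
    · exact map_smul (r2 K) a φ
    · change r2 K (pderiv 2 (a • φ)) = a • r2 K (pderiv 2 φ)
      rw [Derivation.map_smul, map_smul]

theorem Ph_apply (φ : MvPolynomial (Fin 3) K) : Ph φ = (r2 K φ, r2 K (pderiv 2 φ)) := rfl

theorem XX2_eq : (X 2 ^ 2 : MvPolynomial (Fin 3) K) = monomial (Finsupp.single 2 2) 1 := by
  rw [X_pow_eq_monomial]

theorem Ph_mulS {φ : MvPolynomial (Fin 3) K} {r : ℕ}
    (h : φ ∈ mulS (X 2 ^ 2 : MvPolynomial (Fin 3) K) r) : Ph φ = 0 := by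
  obtain ⟨b, -, rfl⟩ := mem_mulS.1 h
  rw [Ph_apply]
  simp

/-- the kernel of `Ph` on the forms of degree `r + 2` -/
theorem mem_of_Ph [CharZero K] {φ : MvPolynomial (Fin 3) K} {r : ℕ}
    (hφ : φ.IsHomogeneous (r + 2)) (h : Ph φ = 0) :
    φ ∈ mulS (X 2 ^ 2 : MvPolynomial (Fin 3) K) r := by
  have h1 : r2 K φ = 0 := congrArg Prod.fst h
  have h2 : r2 K (pderiv 2 φ) = 0 := congrArg Prod.snd h
  have h3 : (pderiv 2 φ).IsHomogeneous (r + 1) := hφ.pderiv
  rw [XX2_eq]
  refine mem_mulS_monomial hφ _ ?_ ?_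
  · rw [deg3]
    simp
    omega
  · intro m hm hs
    by_cases hm2 : m 2 = 0
    · rw [← coeff_r2 hφ m hm hm2, h1, Polynomial.coeff_zero]
    · have hm21 : m 2 = 1 := by
        by_contra hne
        apply hs
        intro i
        fin_cases i
        · simp
        · simp
        · simp
          omega
      -- `m = m' + e_2`
      obtain ⟨m', hm'⟩ : ∃ m' : Fin 3 →₀ ℕ, m = m' + Finsupp.single (2 : Fin 3) 1 :=
        ⟨m - Finsupp.single (2 : Fin 3) 1, by
          rw [tsub_add_cancel_of_le]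
          rw [Finsupp.single_le_iff]
          omega⟩
      have hm'2 : m' 2 = 0 := by
        rw [hm', Finsupp.add_apply, Finsupp.single_eq_same] at hm21
        omega
      have hm'd : m'.degree = r + 1 := by
        rw [hm', map_add] at hm
        have h4 : (Finsupp.single (2 : Fin 3) 1 : Fin 3 →₀ ℕ).degree = 1 := by
          rw [deg3]
          simp
        omega
      have h5 := coeff_r2 h3 m' hm'd hm'2
      rw [h2, Polynomial.coeff_zero, coeff_pderiv, ← hm', hm'2] at h5
      have h6 : ((0 : ℕ) : K) + 1 ≠ 0 := by norm_num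
      exact (mul_eq_zero.1 h5.symm).resolve_right h6

theorem pd_comm (φ : MvPolynomial (Fin 3) K) :
    pderiv 2 (pderiv 0 φ) = pderiv 0 (pderiv 2 φ) := by
  ext m
  rw [coeff_pderiv, coeff_pderiv, coeff_pderiv, coeff_pderiv,
    add_right_comm m (Finsupp.single (0 : Fin 3) 1) (Finsupp.single (2 : Fin 3) 1)]
  simp
  ring

/-- the three operators -/
theorem Ph_N1 (φ : MvPolynomial (Fin 3) K) : Ph (X 1 * pderiv 0 φ) =
    (Polynomial.derivative (Ph φ).1, Polynomial.derivative (Ph φ).2) := by
  rw [Ph_apply, Ph_apply, derivative_r2, derivative_r2]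
  refine Prod.ext ?_ ?_
  · change r2 K (X 1 * pderiv 0 φ) = r2 K (pderiv 0 φ)
    rw [map_mul, r2_X1, one_mul]
  · change r2 K (pderiv 2 (X 1 * pderiv 0 φ)) = r2 K (pderiv 0 (pderiv 2 φ))
    rw [pderiv_mul, pderiv_X_of_ne (by decide), zero_mul, zero_add, map_mul, r2_X1, one_mul,
      pd_comm]

theorem Ph_E0 (φ : MvPolynomial (Fin 3) K) : Ph (X 0 * pderiv 0 φ) =
    (Polynomial.X * Polynomial.derivative (Ph φ).1,
      Polynomial.X * Polynomial.derivative (Ph φ).2) := by
  rw [Ph_apply, Ph_apply, derivative_r2, derivative_r2]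
  refine Prod.ext ?_ ?_
  · change r2 K (X 0 * pderiv 0 φ) = Polynomial.X * r2 K (pderiv 0 φ)
    rw [map_mul, r2_X0]
  · change r2 K (pderiv 2 (X 0 * pderiv 0 φ)) = Polynomial.X * r2 K (pderiv 0 (pderiv 2 φ))
    rw [pderiv_mul, pderiv_X_of_ne (by decide), zero_mul, zero_add, map_mul, r2_X0,
      pd_comm]

theorem Ph_N3 {φ : MvPolynomial (Fin 3) K} (hφ : φ.IsHomogeneous 3) : Ph (X 2 * pderiv 1 φ) =
    (0, Polynomial.C 3 * (Ph φ).1 - Polynomial.X * Polynomial.derivative (Ph φ).1) := by
  have he : ∑ i, X i * pderiv i φ = 3 • φ := hφ.sum_X_mul_pderiv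
  have he2 := congrArg (r2 K) he
  rw [Fin.sum_univ_three, map_add, map_add, map_mul, map_mul, map_mul, r2_X0, r2_X1, r2_X2,
    one_mul, zero_mul, add_zero, map_nsmul, nsmul_eq_mul] at he2
  rw [Ph_apply, Ph_apply, derivative_r2]
  refine Prod.ext ?_ ?_
  · change r2 K (X 2 * pderiv 1 φ) = 0
    rw [map_mul, r2_X2, zero_mul]
  · change r2 K (pderiv 2 (X 2 * pderiv 1 φ)) =
      Polynomial.C 3 * r2 K φ - Polynomial.X * r2 K (pderiv 0 φ)
    rw [pderiv_mul, pderiv_X_self, one_mul, map_add, map_mul, r2_X2, zero_mul, add_zero]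
    have h3 : (Polynomial.C 3 : Polynomial K) = ((3 : ℕ) : Polynomial K) := by
      rw [← map_natCast Polynomial.C 3]
      norm_num
    rw [h3]
    linear_combination he2

end

end Pool.Agent.T2C.H44
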