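import Pool.Agent.Lib.MP_c7af3c_ag.T2C.H8.StabC
import Pool.Agent.Lib.MP_c7af3c_ag.T2.H44.Rigid

/-!
# MP_c7af3c_ag, project T2C: rigidity for tuples of forms (helper44)

`D : DSys K n c d` arbitrary, `k` a subfield of `K`, algebraically closed in `K`, which contains
the coefficients of `F`. If the plane with its structure (restrictions of `F` modulo a space of
tuples, the point) is isomorphic to one over `k`, then every derivation over `k` moves the plane
along an element of `kk`. If the elements of `kk` fix the point then the point is over `k`.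

* `mem_comap`: the general form: the modulus is a space `W` of tuples, `W0` is its transform.
* `mem_kkC_of`: the modulus is `q S`, `q` transforms to a form over `k`.
* `pt_over`: the point is over `k` if all derivations over `k` move the plane along motions which
  fix the point.
* `rigidW`, `rigidC`: the two versions of the row RIGID.
-/

set_option autoImplicit false

namespace Pool.Agent.T2C.H44

open MvPolynomial Pool.Agent.Gen Pool.Agent.Sharp Pool.Agent.Edge
open Pool.Agent.Sharp.H75 (dco DG af Tup Hom)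
open Pool.Agent.Edge.H65 (ssub)
open Pool.Agent.T2.H44 (ssub_ssub ssub_one exists_inv dco_int)
open Pool.Agent.T2C.H8

section sub

variable {K : Type} [Field K] {n c : ℕ} {d : Fin c → ℕ}

/-- the substitution of a tuple -/
noncomputable def sT (g : Fin 3 → Fin 3 → K) (w : T3 K c) : T3 K c := fun m => ssub g (w m)

theorem sT_apply (g : Fin 3 → Fin 3 → K) (w : T3 K c) (m : Fin c) :
    sT g w m = ssub g (w m) := rfl

theorem sT_sT {g h : Fin 3 → Fin 3 → K} (hh : ∀ i j, ∑ l, h i l * g l j = if i = j then 1 else 0)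
    (w : T3 K c) : sT h (sT g w) = w := by
  funext m
  rw [sT_apply, sT_apply, ssub_ssub]
  exact ssub_one _ hh _

/-- the product of a sum with linear forms with a substitution -/
theorem ssub_move (g : Fin 3 → Fin 3 → K) (P e : Fin 3 → Fin (n + 1) → K)
    (F : MvPolynomial (Fin (n + 1)) K) :
    ssub g (∑ j, X j * ∑ p, C (e j p) * ssub P (pderiv p F)) =
      ∑ p, ssub (fun i p => ∑ j, g i j * P j p) (pderiv p F) *
        ∑ i, C (∑ j, g i j * e j p) * X i := by
  rw [map_sum]
  have h1 : ∀ j : Fin 3, ssub g (X j * ∑ p, C (e j p) * ssub P (pderiv p F)) =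
      ∑ p, ssub (fun i p => ∑ j, g i j * P j p) (pderiv p F) *
        ∑ i, C (g i j * e j p) * X i := by
    intro j
    rw [map_mul, map_sum, H65.ssub_X, Finset.mul_sum]
    refine Finset.sum_congr rfl fun p _ => ?_
    rw [map_mul, H65.ssub_C, ssub_ssub, Finset.sum_mul, Finset.mul_sum]
    refine Finset.sum_congr rfl fun i _ => ?_
    rw [map_mul]
    ring
  simp only [h1]
  rw [Finset.sum_comm]
  refine Finset.sum_congr rfl fun p _ => ?_
  rw [← Finset.mul_sum, Finset.sum_comm]
  congr 1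
  refine Finset.sum_congr rfl fun i _ => ?_
  rw [map_sum, Finset.sum_mul]

/-- the motion of the plane by the derivation `δ`, in the frame `g P` -/
def mv (g h : Fin 3 → Fin 3 → K) (P : Fin 3 → Fin (n + 1) → K) (δ : Derivation ℤ K K) :
    Fin 3 → Fin (n + 1) → K :=
  fun j p => ∑ i, h j i * δ (∑ l, g i l * P l p)

/-- the derivative of the transformed restriction -/
theorem phi_mv (D : DSys K n c d) (P : Fin 3 → Fin (n + 1) → K) {g h : Fin 3 → Fin 3 → K}
    (hg : ∀ i j, ∑ l, g i l * h l j = if i = j then 1 else 0) {δ : Derivation ℤ K K}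
    (hδ : ∀ m, dco δ (D.F m) = 0) :
    sT g (phiC D P (mv g h P δ)) = dT δ (sT g (rs P D.F)) := by
  funext m
  rw [sT_apply, dT_apply, sT_apply, rs_apply, ssub_ssub, H65.dco_ssub, hδ m, map_zero, zero_add,
    phiC_apply, ssub_move]
  refine Finset.sum_congr rfl fun p _ => ?_
  congr 1
  refine Finset.sum_congr rfl fun i _ => ?_
  congr 2
  unfold mv
  have h5 : ∀ j, g i j * ∑ i', h j i' * δ (∑ l, g i' l * P l p) =
      ∑ i', g i j * h j i' * δ (∑ l, g i' l * P l p) := by
    intro j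
    rw [Finset.mul_sum]
    exact Finset.sum_congr rfl fun i' _ => by ring
  simp only [h5]
  rw [Finset.sum_comm]
  simp only [← Finset.sum_mul, hg]
  simp

/-- the general form: the transformed restriction of `F` is constant modulo `W0` -/
theorem mem_comap (D : DSys K n c d) (P : Fin 3 → Fin (n + 1) → K) {g h : Fin 3 → Fin 3 → K}
    (hg : ∀ i j, ∑ l, g i l * h l j = if i = j then 1 else 0)
    (hh : ∀ i j, ∑ l, h i l * g l j = if i = j then 1 else 0) {δ : Derivation ℤ K K}
    (hδ : ∀ m, dco δ (D.F m) = 0) {W : Submodule K (T3 K c)} {W0 : Submodule K (T3 K c)}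
    (hW : ∀ w ∈ W0, sT h w ∈ W) (hW0 : ∀ w ∈ W0, dT δ w ∈ W0) {f0 : T3 K c}
    (hf0 : ∀ m, dco δ (f0 m) = 0) (hf : sT g (rs P D.F) - f0 ∈ W0) :
    mv g h P δ ∈ W.comap (phiC D P) := by
  rw [Submodule.mem_comap, ← sT_sT hh (phiC D P (mv g h P δ)), phi_mv D P hg hδ]
  have h1 : dT δ (sT g (rs P D.F)) = dT δ (sT g (rs P D.F) - f0) := by
    funext m
    have h2 := hf0 m
    rw [dT_apply, dT_apply, Pi.sub_apply]
    ext I
    have h3 := congrArg (coeff I) h2
    rw [H75.coeff_dco, coeff_zero] at h3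
    rw [H75.coeff_dco, H75.coeff_dco, coeff_sub, map_sub, h3, sub_zero]
  rw [h1]
  exact hW _ (hW0 _ hf)

/-- the modulus `q S` -/
theorem mem_kkC_of (D : DSys K n c d) (P : Fin 3 → Fin (n + 1) → K) {g h : Fin 3 → Fin 3 → K}
    (hg : ∀ i j, ∑ l, g i l * h l j = if i = j then 1 else 0)
    (hh : ∀ i j, ∑ l, h i l * g l j = if i = j then 1 else 0) {δ : Derivation ℤ K K}
    (hδ : ∀ m, dco δ (D.F m) = 0) {q q0 : MvPolynomial (Fin 3) K} {e : Fin c → ℕ} {r : K}
    (hr : r ≠ 0) (hq : ssub g q = C r * q0) (hq0 : dco δ q0 = 0) {f0 : T3 K c}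
    (hf0 : ∀ m, dco δ (f0 m) = 0) (hf : sT g (rs P D.F) - f0 ∈ mulC q0 e) :
    mv g h P δ ∈ kkC D P q e := by
  refine mem_comap D P hg hh hδ (W := mulC q e) (W0 := mulC q0 e) ?_ ?_ hf0 hf
  · rintro _ ⟨b, hb, rfl⟩
    refine mem_mulC.2 ⟨fun m => ssub h (C r⁻¹ * b m), fun m => ?_, ?_⟩
    · refine H65.ssub_hom h ?_
      have := (isHomogeneous_C (Fin 3) r⁻¹).mul (hb m)
      rwa [zero_add] at this
    · funext m
      rw [sm_apply, sT_apply, sm_apply]
      have h8 : q0 = C r⁻¹ * ssub g q := by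
        rw [hq, ← mul_assoc, ← C_mul, inv_mul_cancel₀ hr, C_1, one_mul]
      have h6 : ssub h (ssub g q) = q := by
        rw [ssub_ssub]
        exact ssub_one _ hh q
      rw [h8, map_mul, map_mul, map_mul, h6]
      ring
  · rintro _ ⟨b, hb, rfl⟩
    refine mem_mulC.2 ⟨dT δ b, dT_hom δ hb, ?_⟩
    funext m
    rw [sm_apply, dT_apply, dT_apply, sm_apply, H75.dco_mul, hq0, zero_mul, zero_add]

end sub

/-- the point is over `k` if every derivation over `k` moves the plane along a motion which fixes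
the point -/
theorem pt_over {K : Type} [Field K] [CharZero K] {n : ℕ} (k : Subfield K)
    (kalg : ∀ (z : K) (p : Polynomial K), p ≠ 0 → (∀ i, p.coeff i ∈ k) → p.eval z = 0 → z ∈ k)
    {x : Fin (n + 1) → K} {t : Fin 3 → Fin (n + 1)} {P : Fin 3 → Fin (n + 1) → K}
    (x0 : x (t 0) = 1) (xP : ∀ f, x f = ∑ i, P i f * x (t i))
    {g h : Fin 3 → Fin 3 → K} (hg : ∀ i j, ∑ l, g i l * h l j = if i = j then 1 else 0)
    {y0 : Fin 3 → K} (hy0 : ∀ i, y0 i ∈ k) {b : K} (hy : ∀ j, x (t j) = b * ∑ i, y0 i * g i j)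
    (hkk : ∀ δ : Derivation ℤ K K, (∀ z ∈ k, δ z = 0) →
      ∃ s, ∀ f, ∑ i, x (t i) * mv g h P δ i f = s * x f) (i0 : Fin (n + 1)) : x i0 ∈ k := by
  refine T2.H95.mem_of_der k ?_ (x i0) fun δ hδ => ?_
  · intro y hy
    obtain ⟨p, hp0, hp⟩ := hy
    refine kalg y (p.map (algebraMap k K)) ?_ ?_ ?_
    · exact (Polynomial.map_ne_zero_iff (algebraMap k K).injective).2 hp0
    · intro i
      rw [Polynomial.coeff_map]
      exact (p.coeff i).2
    · rwa [Polynomial.eval_map_algebraMap]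
  · obtain ⟨s, hc⟩ := hkk δ hδ
    unfold mv at hc
    -- the vector `u` with `x = b u`
    have hx : ∀ f, x f = b * ∑ i, y0 i * ∑ l, g i l * P l f := by
      intro f
      rw [xP f]
      have h2 : ∀ j, P j f * x (t j) = b * ∑ i, y0 i * (g i j * P j f) := by
        intro j
        rw [hy j, Finset.mul_sum, Finset.mul_sum, Finset.mul_sum]
        exact Finset.sum_congr rfl fun i _ => by ring
      simp only [h2]
      rw [← Finset.mul_sum, Finset.sum_comm]
      simp only [← Finset.mul_sum]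
    have he : ∀ f, ∑ i, x (t i) * ∑ i', h i i' * δ (∑ l, g i' l * P l f) =
        b * ∑ i, y0 i * δ (∑ l, g i l * P l f) := by
      intro f
      have h2 : ∀ j, x (t j) * ∑ i', h j i' * δ (∑ l, g i' l * P l f) =
          ∑ i', (∑ i, b * y0 i * (g i j * h j i')) * δ (∑ l, g i' l * P l f) := by
        intro j
        rw [hy j, Finset.mul_sum]
        refine Finset.sum_congr rfl fun i' _ => ?_
        rw [Finset.mul_sum, Finset.sum_mul, Finset.sum_mul]
        exact Finset.sum_congr rfl fun i _ => by ring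
      simp only [h2]
      rw [Finset.sum_comm]
      have h3 : ∀ i', ∑ j, (∑ i, b * y0 i * (g i j * h j i')) *
          δ (∑ l, g i' l * P l f) = b * (y0 i' * δ (∑ l, g i' l * P l f)) := by
        intro i'
        rw [← Finset.sum_mul, Finset.sum_comm]
        simp only [← Finset.mul_sum, hg]
        simp only [mul_ite, mul_one, mul_zero, Finset.sum_ite_eq', Finset.mem_univ, if_true]
        ring
      simp only [h3]
      rw [← Finset.mul_sum]
    have hs : ∀ f, δ (∑ i, y0 i * ∑ l, g i l * P l f) =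
        ∑ i, y0 i * δ (∑ l, g i l * P l f) := by
      intro f
      rw [map_sum]
      refine Finset.sum_congr rfl fun i _ => ?_
      rw [Derivation.leibniz, hδ _ (hy0 i), smul_zero, add_zero, smul_eq_mul]
    have hb : b ≠ 0 := by
      intro hb
      have h2 := hx (t 0)
      rw [x0, hb, zero_mul] at h2
      exact one_ne_zero h2
    have hds : ∀ f, δ (∑ i, y0 i * ∑ l, g i l * P l f) =
        s * ∑ i, y0 i * ∑ l, g i l * P l f := by
      intro f
      have h2 := hc f
      rw [he, hx f, ← hs f] at h2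
      refine mul_left_cancel₀ hb ?_
      rw [h2]
      ring
    have hdx : ∀ f, δ (x f) = (δ b + b * s) * ∑ i, y0 i * ∑ l, g i l * P l f := by
      intro f
      rw [hx f, Derivation.leibniz, hds f]
      simp only [smul_eq_mul]
      ring
    have h2 := hdx (t 0)
    rw [x0, Derivation.map_one_eq_zero] at h2
    have h3 : ∑ i, y0 i * ∑ l, g i l * P l (t 0) ≠ 0 := by
      intro h4
      have h5 := hx (t 0)
      rw [x0, h4, mul_zero] at h5
      exact one_ne_zero h5
    have h4 : δ b + b * s = 0 := (mul_eq_zero.1 h2.symm).resolve_right h3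
    rw [hdx i0, h4, zero_mul]

section rigid

variable {K : Type} [Field K] [CharZero K] {n c : ℕ} {d : Fin c → ℕ}

omit [CharZero K] in
theorem dco_of_mem {σ : Type} {k : Subfield K} {δ : Derivation ℤ K K} (hδ : ∀ z ∈ k, δ z = 0)
    {G : MvPolynomial σ K} (hG : ∀ I, coeff I G ∈ k) : dco δ G = 0 := by
  ext I
  rw [H75.coeff_dco, coeff_zero]
  exact hδ _ (hG I)

/-- Rigidity, the modulus is a space `W` of tuples with the transform `W0`, stable under the
derivations over `k`. -/
theorem rigidW (k : Subfield K)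
    (kalg : ∀ (z : K) (p : Polynomial K), p ≠ 0 → (∀ i, p.coeff i ∈ k) → p.eval z = 0 → z ∈ k)
    (D : DSys K n c d) (kF : ∀ m I, coeff I (D.F m) ∈ k)
    {x : Fin (n + 1) → K} {t : Fin 3 → Fin (n + 1)} {P : Fin 3 → Fin (n + 1) → K}
    (x0 : x (t 0) = 1) (xP : ∀ f, x f = ∑ i, P i f * x (t i))
    {W W0 : Submodule K (T3 K c)}
    (hkk : ∀ e : Fin 3 → Fin (n + 1) → K, phiC D P e ∈ W →
      ∃ s, ∀ f, ∑ i, x (t i) * e i f = s * x f)
    {g h : Fin 3 → Fin 3 → K} (hg : ∀ i j, ∑ l, g i l * h l j = if i = j then 1 else 0)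
    (hh : ∀ i j, ∑ l, h i l * g l j = if i = j then 1 else 0)
    (hW : ∀ w ∈ W0, sT h w ∈ W)
    (hW0 : ∀ δ : Derivation ℤ K K, (∀ z ∈ k, δ z = 0) → ∀ w ∈ W0, dT δ w ∈ W0)
    {f0 : T3 K c} (hf0 : ∀ m I, coeff I (f0 m) ∈ k) (hf : sT g (rs P D.F) - f0 ∈ W0)
    {y0 : Fin 3 → K} (hy0 : ∀ i, y0 i ∈ k) {b : K} (hy : ∀ j, x (t j) = b * ∑ i, y0 i * g i j)
    (i0 : Fin (n + 1)) : x i0 ∈ k := by
  refine pt_over k kalg x0 xP hg hy0 hy (fun δ hδ => hkk _ ?_) i0
  exact mem_comap D P hg hh (fun m => dco_of_mem hδ (kF m)) hW (hW0 δ hδ)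
    (fun m => dco_of_mem hδ (hf0 m)) hf

/-- Rigidity, the modulus is `q S`: if the plane with the conic, the restrictions of `F` modulo
the conic and the point is isomorphic to one over `k`, and the motions `kk` fix the point, then
the point is over `k`. -/
theorem rigidC (k : Subfield K)
    (kalg : ∀ (z : K) (p : Polynomial K), p ≠ 0 → (∀ i, p.coeff i ∈ k) → p.eval z = 0 → z ∈ k)
    (D : DSys K n c d) (kF : ∀ m I, coeff I (D.F m) ∈ k)
    {x : Fin (n + 1) → K} {t : Fin 3 → Fin (n + 1)} {P : Fin 3 → Fin (n + 1) → K}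
    (x0 : x (t 0) = 1) (xP : ∀ f, x f = ∑ i, P i f * x (t i))
    {q : MvPolynomial (Fin 3) K} {e : Fin c → ℕ}
    (hkk : ∀ u ∈ kkC D P q e, ∃ s, ∀ f, ∑ i, x (t i) * u i f = s * x f)
    {g : Fin 3 → Fin 3 → K} (gi : LinearIndependent K g)
    {q0 : MvPolynomial (Fin 3) K} (hq0 : ∀ I, coeff I q0 ∈ k) {r : K} (hr : r ≠ 0)
    (hq : ssub g q = C r * q0)
    {f0 : T3 K c} (hf0 : ∀ m I, coeff I (f0 m) ∈ k)
    (hf : ∀ m, ∃ u, u.IsHomogeneous (e m) ∧ q0 * u = ssub g (ssub P (D.F m)) - f0 m)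
    {y0 : Fin 3 → K} (hy0 : ∀ i, y0 i ∈ k) {b : K} (hy : ∀ j, x (t j) = b * ∑ i, y0 i * g i j)
    (i0 : Fin (n + 1)) : x i0 ∈ k := by
  obtain ⟨h, hh, hg⟩ := exists_inv g gi
  refine pt_over k kalg x0 xP hg hy0 hy (fun δ hδ => hkk _ ?_) i0
  refine mem_kkC_of D P hg hh (fun m => dco_of_mem hδ (kF m)) hr hq (dco_of_mem hδ hq0)
    (fun m => dco_of_mem hδ (hf0 m)) ?_
  choose u hu1 hu2 using hf
  exact mem_mulC.2 ⟨u, hu1, funext hu2⟩

end rigid

end Pool.Agent.T2C.H44
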