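import Pool.Agent.Lib.MP_c7af3c_ag.T2C.IfaceB
import Pool.Agent.Lib.MP_c7af3c_ag.T2C.H44.RigidC

/-!
# MP_c7af3c_ag, project T2C: row RIGID for tuples (helper44)

A derivation over `k` moves the plane along an element of `kk`: with `B (g f) = f0 + q0 A` one has
`B (g (e F)) + (δ B) (g f) = q0 (δ A)`, and `B̃ = h (B' (δ B))`.
-/

set_option autoImplicit false

namespace Pool.Agent.T2C.H44

open MvPolynomial Pool.Agent.Gen Pool.Agent.Sharp Pool.Agent.Edge
open Pool.Agent.Sharp.H75 (dco DG af Tup Hom)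
open Pool.Agent.Edge.H65 (ssub)
open Pool.Agent.T2.H44 (ssub_ssub ssub_one exists_inv dco_int)
open Pool.Agent.T2C.H8

section mats

variable {K : Type} [Field K] {c : ℕ} {d : Fin c → ℕ}

/-- the product of two matrices in `BF` -/
theorem BF_mul {A B : Fin c → Fin c → MvPolynomial (Fin 3) K} (hA : A ∈ BF K (Fin 3) d)
    (hB : B ∈ BF K (Fin 3) d) : (fun m m' => ∑ j, A m j * B j m') ∈ BF K (Fin 3) d := by
  intro m m'
  constructor
  · intro h
    refine IsHomogeneous.sum _ _ _ fun j _ => ?_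
    rcases Nat.lt_or_ge (d m) (d j) with h1 | h1
    · change (A m j * B j m').IsHomogeneous _
      rw [(hA m j).2 h1, zero_mul]
      exact isHomogeneous_zero _ _ _
    · rcases Nat.lt_or_ge (d j) (d m') with h2 | h2
      · change (A m j * B j m').IsHomogeneous _
        rw [(hB j m').2 h2, mul_zero]
        exact isHomogeneous_zero _ _ _
      · have h3 := ((hA m j).1 h1).mul ((hB j m').1 h2)
        rwa [show d m - d j + (d j - d m') = d m - d m' by omega] at h3
  · intro h
    refine Finset.sum_eq_zero fun j _ => ?_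
    rcases Nat.lt_or_ge (d m) (d j) with h1 | h1
    · rw [(hA m j).2 h1, zero_mul]
    · rw [(hB j m').2 (by omega), mul_zero]

/-- the derivative of a matrix in `BF` -/
theorem BF_dco {B : Fin c → Fin c → MvPolynomial (Fin 3) K} (hB : B ∈ BF K (Fin 3) d)
    (δ : Derivation ℤ K K) : (fun m m' => dco δ (B m m')) ∈ BF K (Fin 3) d :=
  fun m m' => ⟨fun h => H75.dco_hom δ ((hB m m').1 h), fun h => by
    change dco δ (B m m') = 0
    rw [(hB m m').2 h, H75.dco_zero]⟩

/-- the substitution in a matrix in `BF` -/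
theorem BF_ssub {B : Fin c → Fin c → MvPolynomial (Fin 3) K} (hB : B ∈ BF K (Fin 3) d)
    (h : Fin 3 → Fin 3 → K) : (fun m m' => ssub h (B m m')) ∈ BF K (Fin 3) d :=
  fun m m' => ⟨fun h1 => H65.ssub_hom h ((hB m m').1 h1), fun h1 => by
    change ssub h (B m m') = 0
    rw [(hB m m').2 h1, map_zero]⟩

/-- a matrix in `BF` applied to a tuple with degrees `d - 2` -/
theorem bmul_hom {B : Fin c → Fin c → MvPolynomial (Fin 3) K} (hB : B ∈ BF K (Fin 3) d)
    (hd : ∀ m, 2 ≤ d m) {A : T3 K c} (hA : HomC (fun m => d m - 2) A) :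
    HomC (fun m => d m - 2) (bmul B A) := by
  intro m
  refine IsHomogeneous.sum _ _ _ fun j _ => ?_
  rcases Nat.lt_or_ge (d m) (d j) with h1 | h1
  · rw [(hB m j).2 h1, zero_mul]
    exact isHomogeneous_zero _ _ _
  · have h3 := ((hB m j).1 h1).mul (hA j)
    have h4 := hd j
    rwa [show d m - d j + (d j - 2) = d m - 2 by omega] at h3

end mats

/-- a derivation over `k` moves the plane along an element of `kk` -/
theorem mem_kk {K : Type} [Field K] {n c : ℕ} {d : Fin c → ℕ} (D : DSys K n c d)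
    (P : Fin 3 → Fin (n + 1) → K) (hd : ∀ m, 2 ≤ d m)
    {q : MvPolynomial (Fin 3) K} {g h : Fin 3 → Fin 3 → K}
    (hg : ∀ i j, ∑ l, g i l * h l j = if i = j then 1 else 0)
    (hh : ∀ i j, ∑ l, h i l * g l j = if i = j then 1 else 0)
    {B B' : Fin c → Fin c → MvPolynomial (Fin 3) K} (hB : B ∈ BF K (Fin 3) d)
    (hB' : B' ∈ BF K (Fin 3) d) (inv : ∀ m m', ∑ j, B' m j * B j m' = if m = m' then 1 else 0)
    {q0 : MvPolynomial (Fin 3) K} {f0 : T3 K c} {a : K} (ha : a ≠ 0)
    (hq : ssub g q = C a * q0) {δ : Derivation ℤ K K} (hq0 : dco δ q0 = 0)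
    (hf0 : ∀ m, dco δ (f0 m) = 0)
    (hf : bmul B (fun m => ssub g (fP D P m)) - f0 ∈ mulC q0 (fun m => d m - 2))
    (hδ : ∀ m, dco δ (D.F m) = 0) :
    (mv g h P δ, fun m m' => ssub h (∑ j, B' m j * dco δ (B j m'))) ∈ kk D P q := by
  obtain ⟨A, hA, hAf⟩ := mem_mulC.1 hf
  -- the derivative of the transformed restrictions
  have h0 : ∀ m, ssub g (mvt D P (mv g h P δ) m) = dco δ (ssub g (fP D P m)) := by
    intro m
    exact congrFun (phi_mv D P hg hδ) m
  have h1 : ∀ m, ∑ j, B m j * ssub g (fP D P j) = f0 m + q0 * A m := by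
    intro m
    have h2 := congrFun hAf m
    rw [sm_apply, Pi.sub_apply] at h2
    change q0 * A m = ∑ j, B m j * ssub g (fP D P j) - f0 m at h2
    rw [h2]
    ring
  have h2 : ∀ m, ∑ j, (dco δ (B m j) * ssub g (fP D P j) +
      B m j * dco δ (ssub g (fP D P j))) = q0 * dco δ (A m) := by
    intro m
    have h3 := congrArg (dco δ) (h1 m)
    rw [H75.dco_sum, H75.dco_add, H75.dco_mul, hf0, hq0, zero_mul, zero_add, zero_add] at h3
    rw [← h3]
    exact Finset.sum_congr rfl fun j _ => (H75.dco_mul _ _ _).symm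
  have h3 : ∀ m, dco δ (ssub g (fP D P m)) +
      ∑ m', (∑ j, B' m j * dco δ (B j m')) * ssub g (fP D P m') =
      q0 * bmul B' (fun m => dco δ (A m)) m := by
    intro m
    have h4 : ∑ j, B' m j * ∑ j', (dco δ (B j j') * ssub g (fP D P j') +
        B j j' * dco δ (ssub g (fP D P j'))) = q0 * bmul B' (fun m => dco δ (A m)) m := by
      unfold bmul
      rw [Finset.mul_sum]
      refine Finset.sum_congr rfl fun j _ => ?_
      rw [h2]
      ring
    rw [← h4]
    simp only [Finset.sum_add_distrib, mul_add, Finset.mul_sum, Finset.sum_mul]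
    rw [add_comm]
    congr 1
    · rw [Finset.sum_comm]
      refine Finset.sum_congr rfl fun j _ => Finset.sum_congr rfl fun j' _ => ?_
      ring
    · rw [Finset.sum_comm]
      have h5 : ∀ j', ∑ j, B' m j * (B j j' * dco δ (ssub g (fP D P j'))) =
          if m = j' then dco δ (ssub g (fP D P j')) else 0 := by
        intro j'
        have h6 : ∑ j, B' m j * (B j j' * dco δ (ssub g (fP D P j'))) =
            (∑ j, B' m j * B j j') * dco δ (ssub g (fP D P j')) := by
          rw [Finset.sum_mul]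
          exact Finset.sum_congr rfl fun j _ => by ring
        rw [h6, inv, ite_mul, one_mul, zero_mul]
      simp only [h5, Finset.sum_ite_eq, Finset.mem_univ, if_true]
  refine ⟨BF_ssub (BF_mul hB' (BF_dco hB δ)) h, ?_⟩
  have hA' : HomC (fun m => d m - 2) (bmul B' fun m => dco δ (A m)) :=
    bmul_hom hB' hd fun m => H75.dco_hom δ (hA m)
  refine mem_mulC.2 ⟨fun m => ssub h (C a⁻¹ * bmul B' (fun m => dco δ (A m)) m), fun m => ?_, ?_⟩
  · refine H65.ssub_hom h ?_
    have := (isHomogeneous_C (Fin 3) a⁻¹).mul (hA' m)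
    rwa [zero_add] at this
  · funext m
    have h6 : ∀ G : MvPolynomial (Fin 3) K, ssub h (ssub g G) = G := by
      intro G
      rw [ssub_ssub]
      exact ssub_one _ hh G
    have h7 := congrArg (ssub h) (h3 m)
    rw [← h0, map_add, h6, map_sum] at h7
    have h8 : q0 = C a⁻¹ * ssub g q := by
      rw [hq, ← mul_assoc, ← C_mul, inv_mul_cancel₀ ha, C_1, one_mul]
    rw [Pi.add_apply, sm_apply]
    change q * ssub h (C a⁻¹ * bmul B' (fun m => dco δ (A m)) m) = mvt D P (mv g h P δ) m +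
      ∑ m', ssub h (∑ j, B' m j * dco δ (B j m')) * fP D P m'
    have h9 : ∀ m', ssub h ((∑ j, B' m j * dco δ (B j m')) * ssub g (fP D P m')) =
        ssub h (∑ j, B' m j * dco δ (B j m')) * fP D P m' := by
      intro m'
      rw [map_mul, h6]
    simp only [h9] at h7
    rw [h7, h8]
    simp only [map_mul, h6]
    ring

/-- Row RIGID. -/
theorem rigid : RigidStatement := by
  rintro K _ _ k n c d D x t P hT hP q _ _ hkk ⟨g, B, B', q0, f0, y0, a, b, hC⟩
  obtain ⟨h, hh, hg⟩ := exists_inv g hC.gi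
  obtain ⟨i0, hi0⟩ := hP.xk
  refine hi0 (pt_over k hP.kalg hP.x0 hP.xP hg (y0 := fun i => (y0 i : K))
    (fun i => intCast_mem k (y0 i)) (b := b) hC.hy (fun δ hδ => ?_) i0)
  have h1 := mem_kk D P hT.two hg hh hC.hB hC.hB' hC.inv hC.a0 hC.hq (δ := δ) (dco_int δ q0)
    (fun m => dco_int δ (f0 m)) hC.hf (fun m => dco_of_mem hδ (hP.kF m))
  exact hkk _ h1

end Pool.Agent.T2C.H44
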