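import Pool.Agent.Lib.MP_c7af3c_ag.T2.H32.Norm
import Pool.Agent.Lib.MP_c7af3c_ag.T2C.H44.Rigid

/-!
# MP_c7af3c_ag, project T2C: transport of `Nrm`, `Stb`, `HasCfg` (helper44)

* frames: `nrm_tr`, `stb_tr`, `hasCfg_tr` (`q ↦ ssub g q`, `f ↦ sT g f`, `y j = ∑ i, y' i * g i j`);
* scalars: `nrm_C`, `stb_C`, `hasCfg_C` (`q ↦ C a * q`);
* change of the equations by a matrix in `BF`: `nrm_bm`, `stb_bm`, `hasCfg_bm` (`f ↦ bmul B f`);
* `reduce`: with QCL the reduction to the four conics and `y = (1, 0, 0)`.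
-/

set_option autoImplicit false

namespace Pool.Agent.T2C.H44

open MvPolynomial Pool.Agent.Gen Pool.Agent.Sharp Pool.Agent.Edge
open Pool.Agent.Sharp.H75 (dco DG af Tup Hom)
open Pool.Agent.Edge.H65 (ssub)
open Pool.Agent.T2C.H8
open Pool.Agent.T2 (S3 mulS mem_mulS QclStatement)
open Pool.Agent.T2.H32 (mm tr tr_apply tr_eq tr_inj ssub_af af_C_mul one3 li_mm eval_ssub3)

section

variable {K : Type} [Field K] {c : ℕ} {d : Fin c → ℕ}

/-! ### `mulS`, `mulC`, `bmul` -/

theorem mulS_ssub {q w : MvPolynomial (Fin 3) K} {r : ℕ} (g : Fin 3 → Fin 3 → K)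
    (h : w ∈ mulS q r) : ssub g w ∈ mulS (ssub g q) r := by
  obtain ⟨b, hb, rfl⟩ := mem_mulS.1 h
  exact mem_mulS.2 ⟨ssub g b, H65.ssub_hom g hb, (map_mul _ _ _).symm⟩

theorem mulS_C {q w : MvPolynomial (Fin 3) K} {r : ℕ} {a : K} (ha : a ≠ 0) :
    w ∈ mulS (C a * q) r ↔ w ∈ mulS q r := by
  constructor
  · rintro ⟨b, hb, rfl⟩
    refine mem_mulS.2 ⟨C a * b, ?_, ?_⟩
    · have h1 := (isHomogeneous_C (Fin 3) a).mul hb
      rwa [zero_add] at h1
    · change q * (C a * b) = C a * q * b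
      ring
  · rintro ⟨b, hb, rfl⟩
    refine mem_mulS.2 ⟨C a⁻¹ * b, ?_, ?_⟩
    · have h1 := (isHomogeneous_C (Fin 3) a⁻¹).mul hb
      rwa [zero_add] at h1
    · change C a * q * (C a⁻¹ * b) = q * b
      have h2 : (C a : MvPolynomial (Fin 3) K) * C a⁻¹ = 1 := by
        rw [← C_mul, mul_inv_cancel₀ ha, C_1]
      linear_combination q * b * h2

theorem mulC_ssub {q : MvPolynomial (Fin 3) K} {w : T3 K c} {e : Fin c → ℕ}
    (g : Fin 3 → Fin 3 → K) (h : w ∈ mulC q e) : sT g w ∈ mulC (ssub g q) e := by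
  obtain ⟨b, hb, rfl⟩ := mem_mulC.1 h
  exact mem_mulC.2 ⟨sT g b, fun m => H65.ssub_hom g (hb m), funext fun m =>
    (map_mul (ssub g) _ _).symm⟩

theorem mem_mulC_iff {q : MvPolynomial (Fin 3) K} {w : T3 K c} {e : Fin c → ℕ} :
    w ∈ mulC q e ↔ ∀ m, w m ∈ mulS q (e m) := by
  constructor
  · rintro ⟨b, hb, rfl⟩ m
    exact mem_mulS.2 ⟨b m, hb m, rfl⟩
  · intro h
    choose b hb hb2 using fun m => mem_mulS.1 (h m)
    exact mem_mulC.2 ⟨b, hb, funext hb2⟩

theorem mulC_C {q : MvPolynomial (Fin 3) K} {w : T3 K c} {e : Fin c → ℕ} {a : K} (ha : a ≠ 0) :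
    w ∈ mulC (C a * q) e ↔ w ∈ mulC q e := by
  rw [mem_mulC_iff, mem_mulC_iff]
  exact forall_congr' fun m => mulS_C ha

theorem bmul_ssub (g : Fin 3 → Fin 3 → K) (B : Fin c → Fin c → MvPolynomial (Fin 3) K)
    (f : T3 K c) : sT g (bmul B f) = bmul (fun m m' => ssub g (B m m')) (sT g f) := by
  funext m
  change ssub g (∑ m', B m m' * f m') = ∑ m', ssub g (B m m') * ssub g (f m')
  rw [map_sum]
  exact Finset.sum_congr rfl fun j _ => map_mul _ _ _

theorem bmul_bmul (A B : Fin c → Fin c → MvPolynomial (Fin 3) K) (f : T3 K c) :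
    bmul A (bmul B f) = bmul (fun m m' => ∑ j, A m j * B j m') f := by
  funext m
  change ∑ j, A m j * ∑ m', B j m' * f m' = ∑ m', (∑ j, A m j * B j m') * f m'
  simp only [Finset.mul_sum, Finset.sum_mul]
  rw [Finset.sum_comm]
  exact Finset.sum_congr rfl fun m' _ => Finset.sum_congr rfl fun j _ => by ring

theorem bmul_one {A : Fin c → Fin c → MvPolynomial (Fin 3) K}
    (hA : ∀ m m', A m m' = if m = m' then 1 else 0) (f : T3 K c) : bmul A f = f := by
  funext m
  change ∑ m', A m m' * f m' = f m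
  simp [hA]

theorem bmul_add (A B : Fin c → Fin c → MvPolynomial (Fin 3) K) (f : T3 K c) :
    bmul (A + B) f = bmul A f + bmul B f := by
  funext m
  change ∑ m', (A m m' + B m m') * f m' = ∑ m', A m m' * f m' + ∑ m', B m m' * f m'
  rw [← Finset.sum_add_distrib]
  exact Finset.sum_congr rfl fun j _ => by ring

theorem bmul_add' (A : Fin c → Fin c → MvPolynomial (Fin 3) K) (f f' : T3 K c) :
    bmul A (f + f') = bmul A f + bmul A f' := by
  funext m
  change ∑ m', A m m' * (f m' + f' m') = ∑ m', A m m' * f m' + ∑ m', A m m' * f' m'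
  rw [← Finset.sum_add_distrib]
  exact Finset.sum_congr rfl fun j _ => by ring

/-- a matrix in `BF` applied to a tuple with degrees `d - s` -/
theorem bmul_hom' {B : Fin c → Fin c → MvPolynomial (Fin 3) K} (hB : B ∈ BF K (Fin 3) d) {s : ℕ}
    (hd : ∀ m, s ≤ d m) {A : T3 K c} (hA : HomC (fun m => d m - s) A) :
    HomC (fun m => d m - s) (bmul B A) := by
  intro m
  refine IsHomogeneous.sum _ _ _ fun j _ => ?_
  rcases Nat.lt_or_ge (d m) (d j) with h1 | h1
  · rw [(hB m j).2 h1, zero_mul]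
    exact isHomogeneous_zero _ _ _
  · have h3 := ((hB m j).1 h1).mul (hA j)
    have h4 := hd j
    rwa [show d m - d j + (d j - s) = d m - s by omega] at h3

theorem mulC_bmul {B : Fin c → Fin c → MvPolynomial (Fin 3) K} (hB : B ∈ BF K (Fin 3) d) {s : ℕ}
    (hd : ∀ m, s ≤ d m) {q : MvPolynomial (Fin 3) K} {w : T3 K c}
    (hw : w ∈ mulC q (fun m => d m - s)) : bmul B w ∈ mulC q (fun m => d m - s) := by
  obtain ⟨b, hb, rfl⟩ := mem_mulC.1 hw
  refine mem_mulC.2 ⟨bmul B b, bmul_hom' hB hd hb, ?_⟩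
  funext m
  change q * ∑ m', B m m' * b m' = ∑ m', B m m' * (q * b m')
  rw [Finset.mul_sum]
  exact Finset.sum_congr rfl fun j _ => by ring

/-! ### frames -/

/-- the data of a frame and its inverse, the point in the frame -/
structure Frm (g h : Fin 3 → Fin 3 → K) (y y' : Fin 3 → K) : Prop where
  hg : mm h g = one3
  gh : mm g h = one3
  hy : ∀ j, y j = ∑ i, y' i * g i j

theorem Frm.li {g h : Fin 3 → Fin 3 → K} {y y' : Fin 3 → K} (F : Frm g h y y') :
    LinearIndependent K g := by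
  rw [Fintype.linearIndependent_iff]
  intro a ha i
  have h1 : ∀ p, ∑ j, a j * g j p = 0 := by
    intro p
    have := congrFun ha p
    simpa [Finset.sum_apply] using this
  have h2 : ∑ p, (∑ j, a j * g j p) * h p i = a i := by
    have h3 : ∀ j, ∑ p, a j * g j p * h p i = a j * (if j = i then 1 else 0) := by
      intro j
      have h4 : mm g h j i = one3 j i := by rw [F.gh]
      unfold mm one3 at h4
      rw [← h4, Finset.mul_sum]
      exact Finset.sum_congr rfl fun p _ => by ring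
    simp only [Finset.sum_mul]
    rw [Finset.sum_comm]
    simp [h3]
  rw [← h2]
  simp [h1]

theorem ssub_back {g h : Fin 3 → Fin 3 → K} {y y' : Fin 3 → K} (F : Frm g h y y')
    (G : MvPolynomial (Fin 3) K) : ssub h (ssub g G) = G := by
  rw [T2.H32.ssub_ssub, F.hg, T2.H32.ssub_one]

theorem ssub_forth {g h : Fin 3 → Fin 3 → K} {y y' : Fin 3 → K} (F : Frm g h y y')
    (G : MvPolynomial (Fin 3) K) : ssub g (ssub h G) = G := by
  rw [T2.H32.ssub_ssub, F.gh, T2.H32.ssub_one]

theorem eval_frm {g h : Fin 3 → Fin 3 → K} {y y' : Fin 3 → K} (F : Frm g h y y')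
    (G : MvPolynomial (Fin 3) K) : eval y' (ssub g G) = eval y G := by
  rw [eval_ssub3]
  congr 2
  funext j
  exact (F.hy j).symm

/-- `(L, B)` in the new frame -/
noncomputable def trB (g h : Fin 3 → Fin 3 → K) :
    ((Fin 3 → Fin 3 → K) × (Fin c → Fin c → MvPolynomial (Fin 3) K)) →ₗ[K]
      ((Fin 3 → Fin 3 → K) × (Fin c → Fin c → MvPolynomial (Fin 3) K)) where
  toFun a := (tr g h a.1, fun m m' => ssub g (a.2 m m'))
  map_add' a b := by
    refine Prod.ext (map_add (tr g h) a.1 b.1) ?_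
    funext m m'
    exact map_add (ssub g) (a.2 m m') (b.2 m m')
  map_smul' r a := by
    refine Prod.ext (map_smul (tr g h) r a.1) ?_
    funext m m'
    exact map_smul (ssub g) r (a.2 m m')

theorem trB_apply (g h : Fin 3 → Fin 3 → K)
    (a : (Fin 3 → Fin 3 → K) × (Fin c → Fin c → MvPolynomial (Fin 3) K)) :
    trB g h a = (tr g h a.1, fun m m' => ssub g (a.2 m m')) := rfl

theorem trB_inj {g h : Fin 3 → Fin 3 → K} {y y' : Fin 3 → K} (F : Frm g h y y') :
    Function.Injective (trB (c := c) g h) := by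
  rintro ⟨L, B⟩ ⟨L', B'⟩ hab
  rw [trB_apply, trB_apply] at hab
  have h1 := tr_inj F.hg F.gh (congrArg Prod.fst hab)
  have h2 := congrArg Prod.snd hab
  refine Prod.ext h1 ?_
  funext m m'
  have h3 := congrArg (ssub h) (congrFun (congrFun h2 m) m')
  change ssub h (ssub g (B m m')) = ssub h (ssub g (B' m m')) at h3
  rwa [ssub_back F, ssub_back F] at h3

theorem nrm_tr {q : MvPolynomial (Fin 3) K} {f : T3 K c} {y y' : Fin 3 → K}
    {g h : Fin 3 → Fin 3 → K} (F : Frm g h y y') (hN : Nrm d q f y) :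
    Nrm d (ssub g q) (sT g f) y' where
  hq := H65.ssub_hom g hN.hq
  q0 := by
    intro h0
    apply hN.q0
    rw [← ssub_back F q, h0, map_zero]
  hf m := H65.ssub_hom g (hN.hf m)
  y0 := by
    rintro rfl
    apply hN.y0
    funext j
    rw [F.hy j]
    simp
  yq := by rw [eval_frm F]; exact hN.yq
  yf m := by
    rw [sT_apply, eval_frm F]; exact hN.yf m
  noln z hz hz0 hm := by
    refine hN.noln (ssub h z) (H65.ssub_hom h hz) ?_ ?_
    · intro h0
      apply hz0
      rw [← ssub_forth F z, h0, map_zero]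
    · have h1 := mulC_ssub h hm
      have h2 : sT h (sT g f) = f := by
        funext m
        rw [sT_apply, sT_apply, ssub_back F]
      rwa [h2] at h1

theorem stb_tr {q : MvPolynomial (Fin 3) K} {f : T3 K c} {y y' : Fin 3 → K}
    {g h : Fin 3 → Fin 3 → K} (F : Frm g h y y')
    {M : Submodule K ((Fin 3 → Fin 3 → K) × (Fin c → Fin c → MvPolynomial (Fin 3) K))}
    (hM : Stb d q f y M) : Stb d (ssub g q) (sT g f) y' (M.map (trB g h)) where
  dim := by
    rw [← (Submodule.equivMapOfInjective (trB g h) (trB_inj F) M).finrank_eq]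
    exact hM.dim
  bf := by
    rintro _ ⟨a, ha, rfl⟩
    exact BF_ssub (hM.bf a ha) g
  fy := by
    rintro _ ⟨a, ha, rfl⟩
    obtain ⟨e, he⟩ := hM.fy a ha
    refine ⟨e, fun k => ?_⟩
    have h1 : ∀ p, ∑ j, (∑ i, tr g h a.1 j i * y' i) * g j p = e * ∑ j, y' j * g j p := by
      intro p
      rw [← F.hy p, ← he p]
      have h2 : ∀ j, (∑ i, tr g h a.1 j i * y' i) * g j p =
          ∑ i, y' i * (tr g h a.1 j i * g j p) := by
        intro j
        rw [Finset.sum_mul]
        exact Finset.sum_congr rfl fun i _ => by ring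
      simp only [h2]
      rw [Finset.sum_comm]
      simp only [← Finset.mul_sum, tr_eq F.hg, F.hy]
      simp only [Finset.mul_sum]
      rw [Finset.sum_comm]
      exact Finset.sum_congr rfl fun r _ => Finset.sum_congr rfl fun i _ => by ring
    have h3 : ∀ v : Fin 3 → K, ∑ p, (∑ j, v j * g j p) * h p k = v k := by
      intro v
      have h4 : ∀ j, ∑ p, v j * g j p * h p k = v j * (if j = k then 1 else 0) := by
        intro j
        have h5 : mm g h j k = one3 j k := by rw [F.gh]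
        unfold mm one3 at h5
        rw [← h5, Finset.mul_sum]
        exact Finset.sum_congr rfl fun p _ => by ring
      simp only [Finset.sum_mul]
      rw [Finset.sum_comm]
      simp [h4]
    change ∑ i, tr g h a.1 k i * y' i = e * y' k
    rw [← h3 fun j => ∑ i, tr g h a.1 j i * y' i, ← h3 y', Finset.mul_sum]
    refine Finset.sum_congr rfl fun p _ => ?_
    rw [h1]
    ring
  fq := by
    rintro _ ⟨a, ha, rfl⟩
    obtain ⟨e, he⟩ := hM.fq a ha
    refine ⟨e, ?_⟩
    change af (tr g h a.1) (ssub g q) = _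
    rw [← ssub_af (tr_eq F.hg a.1) q, he, map_mul, H65.ssub_C]
  ff := by
    rintro _ ⟨a, ha, rfl⟩
    have h1 := mulC_ssub g (hM.ff a ha)
    have h2 : sT g ((fun m => af a.1 (f m)) + bmul a.2 f) =
        (fun m => af (trB g h a).1 (sT g f m)) + bmul (trB g h a).2 (sT g f) := by
      have h3 : sT g ((fun m => af a.1 (f m)) + bmul a.2 f) =
          (fun m => ssub g (af a.1 (f m))) + sT g (bmul a.2 f) := by
        funext m
        exact map_add _ _ _
      rw [h3, bmul_ssub]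
      congr 1
      funext m
      exact ssub_af (tr_eq F.hg a.1) (f m)
    rwa [h2] at h1

theorem hasCfg_tr {q : MvPolynomial (Fin 3) K} {f : T3 K c} {y y' : Fin 3 → K}
    {g h : Fin 3 → Fin 3 → K} (F : Frm g h y y') (hC : HasCfg d (ssub g q) (sT g f) y') :
    HasCfg d q f y := by
  obtain ⟨g', B, B', q0, f0, y0, a, b, hC⟩ := hC
  refine ⟨mm g' g, B, B', q0, f0, y0, a, b, li_mm F.li hC.gi, hC.a0, ?_, hC.hB, hC.hB', hC.inv,
    ?_, ?_⟩
  · rw [← T2.H32.ssub_ssub]
    exact hC.hq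
  · have h1 : (fun m => ssub (mm g' g) (f m)) = fun m => ssub g' (sT g f m) := by
      funext m
      rw [← T2.H32.ssub_ssub]
      rfl
    rw [h1]
    exact hC.hf
  · intro j
    rw [F.hy j]
    have h1 : ∀ i, y' i * g i j = b * ∑ k, (y0 k : K) * (g' k i * g i j) := by
      intro i
      rw [hC.hy i, mul_assoc, Finset.sum_mul]
      congr 1
      exact Finset.sum_congr rfl fun k _ => by ring
    simp only [h1]
    rw [← Finset.mul_sum, Finset.sum_comm]
    congr 1
    refine Finset.sum_congr rfl fun k _ => ?_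
    rw [← Finset.mul_sum]
    rfl

/-! ### scalars -/

theorem nrm_C {q : MvPolynomial (Fin 3) K} {f : T3 K c} {y : Fin 3 → K} {a : K} (ha : a ≠ 0)
    (hN : Nrm d (C a * q) f y) : Nrm d q f y where
  hq := by
    have h1 := (isHomogeneous_C (Fin 3) a⁻¹).mul hN.hq
    rwa [← mul_assoc, ← C_mul, inv_mul_cancel₀ ha, C_1, one_mul, zero_add] at h1
  q0 := by
    rintro rfl
    exact hN.q0 (mul_zero _)
  hf := hN.hf
  y0 := hN.y0
  yq := by
    have h1 := hN.yq
    rw [map_mul, eval_C] at h1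
    exact (mul_eq_zero.1 h1).resolve_left ha
  yf := hN.yf
  noln := hN.noln

theorem stb_C {q : MvPolynomial (Fin 3) K} {f : T3 K c} {y : Fin 3 → K} {a : K} (ha : a ≠ 0)
    {M : Submodule K ((Fin 3 → Fin 3 → K) × (Fin c → Fin c → MvPolynomial (Fin 3) K))}
    (hM : Stb d (C a * q) f y M) : Stb d q f y M where
  dim := hM.dim
  bf := hM.bf
  fy := hM.fy
  fq u hu := by
    obtain ⟨e, he⟩ := hM.fq u hu
    refine ⟨e, ?_⟩
    rw [af_C_mul] at he
    have h2 : (C a : MvPolynomial (Fin 3) K) ≠ 0 := by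
      rw [Ne, C_eq_zero]
      exact ha
    refine mul_left_cancel₀ h2 ?_
    rw [he]
    ring
  ff u hu := (mulC_C ha).1 (hM.ff u hu)

theorem hasCfg_C {q : MvPolynomial (Fin 3) K} {f : T3 K c} {y : Fin 3 → K} {a : K} (ha : a ≠ 0)
    (hC : HasCfg d q f y) : HasCfg d (C a * q) f y := by
  obtain ⟨g', B, B', q0, f0, y0, a', b, hC⟩ := hC
  refine ⟨g', B, B', q0, f0, y0, a * a', b, hC.gi, mul_ne_zero ha hC.a0, ?_, hC.hB, hC.hB',
    hC.inv, hC.hf, hC.hy⟩
  rw [map_mul, H65.ssub_C, hC.hq, C_mul, mul_assoc]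

/-! ### change of the equations -/

theorem nrm_bm {q : MvPolynomial (Fin 3) K} {f : T3 K c} {y : Fin 3 → K} (hd : ∀ m, 1 ≤ d m)
    {B B' : Fin c → Fin c → MvPolynomial (Fin 3) K} (hB : B ∈ BF K (Fin 3) d)
    (hB' : B' ∈ BF K (Fin 3) d) (inv : ∀ m m', ∑ j, B' m j * B j m' = if m = m' then 1 else 0)
    (hN : Nrm d q f y) : Nrm d q (bmul B f) y where
  hq := hN.hq
  q0 := hN.q0
  hf := bmul_hom' hB (s := 0) (fun _ => Nat.zero_le _) hN.hf
  y0 := hN.y0
  yq := hN.yq
  yf m := by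
    change eval y (∑ m', B m m' * f m') = 0
    rw [map_sum]
    exact Finset.sum_eq_zero fun j _ => by rw [map_mul, hN.yf, mul_zero]
  noln z hz hz0 hm := by
    refine hN.noln z hz hz0 ?_
    have h1 := mulC_bmul hB' hd hm
    rwa [bmul_bmul, bmul_one inv] at h1

/-- the derivative of a matrix in `BF` along a matrix -/
theorem BF_af {B : Fin c → Fin c → MvPolynomial (Fin 3) K} (hB : B ∈ BF K (Fin 3) d)
    (L : Fin 3 → Fin 3 → K) : (fun m m' => af L (B m m')) ∈ BF K (Fin 3) d :=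
  fun m m' => ⟨fun h => H75.af_hom L ((hB m m').1 h), fun h => by
    change af L (B m m') = 0
    rw [(hB m m').2 h]
    unfold af
    simp⟩

theorem af_add (L : Fin 3 → Fin 3 → K) (F G : MvPolynomial (Fin 3) K) :
    af L (F + G) = af L F + af L G := by
  unfold af
  rw [← Finset.sum_add_distrib]
  exact Finset.sum_congr rfl fun p _ => by rw [map_add, mul_add]

theorem af_sum {ι : Type} (s : Finset ι) (L : Fin 3 → Fin 3 → K)
    (F : ι → MvPolynomial (Fin 3) K) : af L (∑ i ∈ s, F i) = ∑ i ∈ s, af L (F i) := by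
  classical
  induction s using Finset.induction_on with
  | empty =>
    rw [Finset.sum_empty, Finset.sum_empty]
    unfold af
    simp
  | insert a s ha ih => rw [Finset.sum_insert ha, Finset.sum_insert ha, af_add, ih]

theorem af_smul' (L : Fin 3 → Fin 3 → K) (r : K) (F : MvPolynomial (Fin 3) K) :
    af (r • L) F = C r * af L F := by
  unfold af
  rw [Finset.mul_sum]
  refine Finset.sum_congr rfl fun p _ => ?_
  rw [← mul_assoc]
  congr 1
  change ∑ q, C (r * L p q) * X q = C r * ∑ q, C (L p q) * X q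
  rw [Finset.mul_sum]
  exact Finset.sum_congr rfl fun q _ => by rw [C_mul, mul_assoc]

theorem af_add' (L L' : Fin 3 → Fin 3 → K) (F : MvPolynomial (Fin 3) K) :
    af (L + L') F = af L F + af L' F := by
  unfold af
  rw [← Finset.sum_add_distrib]
  refine Finset.sum_congr rfl fun p _ => ?_
  rw [← add_mul]
  congr 1
  change ∑ q, C (L p q + L' p q) * X q = ∑ q, C (L p q) * X q + ∑ q, C (L' p q) * X q
  rw [← Finset.sum_add_distrib]
  exact Finset.sum_congr rfl fun q _ => by rw [C_add, add_mul]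

/-- the matrices as elements of a ring -/
theorem mat_assoc (A B E : Fin c → Fin c → MvPolynomial (Fin 3) K) (m m' : Fin c) :
    ∑ j, A m j * ∑ l, B j l * E l m' = ∑ l, (∑ j, A m j * B j l) * E l m' := by
  simp only [Finset.mul_sum, Finset.sum_mul]
  rw [Finset.sum_comm]
  exact Finset.sum_congr rfl fun m' _ => Finset.sum_congr rfl fun j _ => by ring

/-- `(L, B₁) ↦ (L, B B₁ B' - (L B) B')` -/
noncomputable def bmL (B B' : Fin c → Fin c → MvPolynomial (Fin 3) K) :
    ((Fin 3 → Fin 3 → K) × (Fin c → Fin c → MvPolynomial (Fin 3) K)) →ₗ[K]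
      ((Fin 3 → Fin 3 → K) × (Fin c → Fin c → MvPolynomial (Fin 3) K)) where
  toFun a := (a.1, fun m m' => ∑ l, ((∑ j, B m j * a.2 j l) - af a.1 (B m l)) * B' l m')
  map_add' a b := by
    refine Prod.ext rfl ?_
    funext m m'
    change ∑ l, ((∑ j, B m j * (a.2 j l + b.2 j l)) - af (a.1 + b.1) (B m l)) * B' l m' =
      ∑ l, ((∑ j, B m j * a.2 j l) - af a.1 (B m l)) * B' l m' +
      ∑ l, ((∑ j, B m j * b.2 j l) - af b.1 (B m l)) * B' l m'
    rw [← Finset.sum_add_distrib]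
    refine Finset.sum_congr rfl fun l _ => ?_
    rw [af_add']
    simp only [mul_add, Finset.sum_add_distrib]
    ring
  map_smul' r a := by
    refine Prod.ext rfl ?_
    funext m m'
    change ∑ l, ((∑ j, B m j * (r • a.2 j l)) - af (r • a.1) (B m l)) * B' l m' =
      r • ∑ l, ((∑ j, B m j * a.2 j l) - af a.1 (B m l)) * B' l m'
    rw [Finset.smul_sum]
    refine Finset.sum_congr rfl fun l _ => ?_
    rw [af_smul']
    have h1 : ∑ j, B m j * (r • a.2 j l) = C r * ∑ j, B m j * a.2 j l := by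
      rw [Finset.mul_sum]
      refine Finset.sum_congr rfl fun j _ => ?_
      rw [smul_eq_C_mul]
      ring
    rw [h1, smul_eq_C_mul]
    ring

theorem bmL_apply (B B' : Fin c → Fin c → MvPolynomial (Fin 3) K)
    (a : (Fin 3 → Fin 3 → K) × (Fin c → Fin c → MvPolynomial (Fin 3) K)) :
    bmL B B' a =
      (a.1, fun m m' => ∑ l, ((∑ j, B m j * a.2 j l) - af a.1 (B m l)) * B' l m') := rfl

theorem inv_right {B B' : Fin c → Fin c → MvPolynomial (Fin 3) K}
    (inv : ∀ m m', ∑ j, B' m j * B j m' = if m = m' then 1 else 0)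
    (A : Fin c → Fin c → MvPolynomial (Fin 3) K) (m m' : Fin c) :
    ∑ k, (∑ l, A m l * B' l k) * B k m' = A m m' := by
  rw [← mat_assoc]
  simp only [inv]
  simp

theorem inv_left {B B' : Fin c → Fin c → MvPolynomial (Fin 3) K}
    (inv : ∀ m m', ∑ j, B' m j * B j m' = if m = m' then 1 else 0)
    (A : Fin c → Fin c → MvPolynomial (Fin 3) K) (m m' : Fin c) :
    ∑ k, B' m k * ∑ l, B k l * A l m' = A m m' := by
  rw [mat_assoc]
  simp only [inv]
  simp

theorem bmL_inj {B B' : Fin c → Fin c → MvPolynomial (Fin 3) K}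
    (inv : ∀ m m', ∑ j, B' m j * B j m' = if m = m' then 1 else 0) :
    Function.Injective (bmL B B') := by
  rintro ⟨L, A⟩ ⟨L', A'⟩ hab
  rw [bmL_apply, bmL_apply] at hab
  have h1 : L = L' := congrArg Prod.fst hab
  subst h1
  have h2 := congrArg Prod.snd hab
  refine Prod.ext rfl ?_
  have h3 : ∀ m m', ∑ j, B m j * A j m' = ∑ j, B m j * A' j m' := by
    intro m m'
    have h4 : ∀ A'' : Fin c → Fin c → MvPolynomial (Fin 3) K,
        ∑ k, (∑ l, ((∑ j, B m j * A'' j l) - af L (B m l)) * B' l k) * B k m' =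
        (∑ j, B m j * A'' j m') - af L (B m m') := fun A'' =>
      inv_right inv (fun m l => (∑ j, B m j * A'' j l) - af L (B m l)) m m'
    have h5 := h4 A
    have h6 : ∀ k, ∑ l, ((∑ j, B m j * A j l) - af L (B m l)) * B' l k =
        ∑ l, ((∑ j, B m j * A' j l) - af L (B m l)) * B' l k := fun k =>
      congrFun (congrFun h2 m) k
    simp only [h6] at h5
    rw [h4] at h5
    linear_combination -h5
  funext m m'
  change A m m' = A' m m'
  rw [← inv_left inv A m m', ← inv_left inv A' m m']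
  exact Finset.sum_congr rfl fun k _ => by rw [h3]

theorem stb_bm {q : MvPolynomial (Fin 3) K} {f : T3 K c} {y : Fin 3 → K} (hd : ∀ m, 2 ≤ d m)
    {B B' : Fin c → Fin c → MvPolynomial (Fin 3) K} (hB : B ∈ BF K (Fin 3) d)
    (hB' : B' ∈ BF K (Fin 3) d) (inv : ∀ m m', ∑ j, B' m j * B j m' = if m = m' then 1 else 0)
    {M : Submodule K ((Fin 3 → Fin 3 → K) × (Fin c → Fin c → MvPolynomial (Fin 3) K))}
    (hM : Stb d q f y M) : Stb d q (bmul B f) y (M.map (bmL B B')) where
  dim := by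
    rw [← (Submodule.equivMapOfInjective (bmL B B') (bmL_inj inv) M).finrank_eq]
    exact hM.dim
  bf := by
    rintro _ ⟨a, ha, rfl⟩
    have h1 := (BF K (Fin 3) d).sub_mem (BF_mul hB (hM.bf a ha)) (BF_af hB a.1)
    exact BF_mul h1 hB'
  fy := by
    rintro _ ⟨a, ha, rfl⟩
    exact hM.fy a ha
  fq := by
    rintro _ ⟨a, ha, rfl⟩
    exact hM.fq a ha
  ff := by
    rintro _ ⟨a, ha, rfl⟩
    have h1 := mulC_bmul hB hd (hM.ff a ha)
    have h2 : (fun m => af (bmL B B' a).1 (bmul B f m)) + bmul (bmL B B' a).2 (bmul B f) =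
        bmul B ((fun m => af a.1 (f m)) + bmul a.2 f) := by
      rw [bmul_add', bmul_bmul, bmul_bmul]
      funext m
      have h3 : ∀ m', ∑ k, (bmL B B' a).2 m k * B k m' =
          (∑ j, B m j * a.2 j m') - af a.1 (B m m') := fun m' =>
        inv_right inv (fun m l => (∑ j, B m j * a.2 j l) - af a.1 (B m l)) m m'
      have h4 : af (bmL B B' a).1 (bmul B f m) =
          ∑ m', (af a.1 (B m m') * f m' + B m m' * af a.1 (f m')) := by
        change af a.1 (∑ m', B m m' * f m') = _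
        rw [af_sum]
        exact Finset.sum_congr rfl fun j _ => H8.af_mul _ _ _
      change af (bmL B B' a).1 (bmul B f m) + ∑ m', (∑ k, (bmL B B' a).2 m k * B k m') * f m' =
        ∑ m', B m m' * af a.1 (f m') + ∑ m', (∑ j, B m j * a.2 j m') * f m'
      rw [h4]
      simp only [h3, Finset.sum_add_distrib, sub_mul, Finset.sum_sub_distrib]
      ring
    rw [h2]
    exact h1

theorem hasCfg_bm {q : MvPolynomial (Fin 3) K} {f : T3 K c} {y : Fin 3 → K}
    {B B' : Fin c → Fin c → MvPolynomial (Fin 3) K} (hB : B ∈ BF K (Fin 3) d)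
    (hB' : B' ∈ BF K (Fin 3) d) (inv : ∀ m m', ∑ j, B' m j * B j m' = if m = m' then 1 else 0)
    (hC : HasCfg d q (bmul B f) y) : HasCfg d q f y := by
  obtain ⟨g, A, A', q0, f0, y0, a, b, hC⟩ := hC
  refine ⟨g, fun m m' => ∑ j, A m j * ssub g (B j m'), fun m m' => ∑ j, ssub g (B' m j) * A' j m',
    q0, f0, y0, a, b, hC.gi, hC.a0, hC.hq, BF_mul hC.hB (BF_ssub hB g),
    BF_mul (BF_ssub hB' g) hC.hB', ?_, ?_, hC.hy⟩
  · intro m m'
    have h1 : ∀ j, ∑ k, A' j k * ∑ l, A k l * ssub g (B l m') = ssub g (B j m') := fun j =>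
      inv_left hC.inv (fun l m' => ssub g (B l m')) j m'
    have h2 : ∑ j, (∑ l, ssub g (B' m l) * A' l j) * ∑ l, A j l * ssub g (B l m') =
        ∑ j, ssub g (B' m j) * ∑ k, A' j k * ∑ l, A k l * ssub g (B l m') :=
      (mat_assoc (fun m l => ssub g (B' m l)) A' (fun j m' => ∑ l, A j l * ssub g (B l m'))
        m m').symm
    rw [h2]
    simp only [h1]
    have h3 := congrArg (ssub g) (inv m m')
    rw [map_sum] at h3
    simp only [map_mul] at h3
    rw [h3]
    split_ifs with h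
    · exact map_one _
    · exact map_zero _
  · have h1 : bmul (fun m m' => ∑ j, A m j * ssub g (B j m')) (fun m => ssub g (f m)) =
        bmul A (fun m => ssub g (bmul B f m)) := by
      have h2 : (fun m => ssub g (bmul B f m)) = bmul (fun m m' => ssub g (B m m')) (sT g f) :=
        bmul_ssub g B f
      rw [h2, bmul_bmul]
      rfl
    rw [h1]
    exact hC.hf

/-! ### the reduction to the four conics -/

/-- the reduction to the four conics and the point `(1, 0, 0)` -/
theorem reduce [CharZero K] [IsAlgClosed K] (hQ : QclStatement) {q : MvPolynomial (Fin 3) K}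
    {f : T3 K c} {y : Fin 3 → K} (hN : Nrm d q f y)
    {M : Submodule K ((Fin 3 → Fin 3 → K) × (Fin c → Fin c → MvPolynomial (Fin 3) K))}
    (hM : Stb d q f y M) : ∃ (q0 : MvPolynomial (Fin 3) K) (f' : T3 K c)
      (M' : Submodule K ((Fin 3 → Fin 3 → K) × (Fin c → Fin c → MvPolynomial (Fin 3) K))),
      Nrm d q0 f' ![1, 0, 0] ∧ Stb d q0 f' ![1, 0, 0] M' ∧
      (HasCfg d q0 f' ![1, 0, 0] → HasCfg d q f y) ∧
      (∀ m r, f' m ∈ mulS q0 r ↔ f m ∈ mulS q r) ∧
      (∀ m, (∃ e, f' m = C e * q0) ↔ ∃ e, f m = C e * q) ∧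
      (q0 = X 0 * X 2 - X 1 ^ 2 ∨ q0 = X 0 * X 2 ∨ q0 = X 1 * X 2 ∨ q0 = X 2 ^ 2) := by
  obtain ⟨g, hg, hyg, a, ha, hc⟩ := hQ K q y hN.hq hN.q0 hN.y0 hN.yq
  obtain ⟨h, h1, h2⟩ := T2.H32.exists_inv hg
  have F : Frm g h y ![1, 0, 0] := ⟨h2, h1, fun j => by
    rw [hyg, Fin.sum_univ_three]
    simp⟩
  have key : ∀ q0 : MvPolynomial (Fin 3) K, ssub g q = C a * q0 →
      (q0 = X 0 * X 2 - X 1 ^ 2 ∨ q0 = X 0 * X 2 ∨ q0 = X 1 * X 2 ∨ q0 = X 2 ^ 2) →
      ∃ (q0 : MvPolynomial (Fin 3) K) (f' : T3 K c)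
      (M' : Submodule K ((Fin 3 → Fin 3 → K) × (Fin c → Fin c → MvPolynomial (Fin 3) K))),
      Nrm d q0 f' ![1, 0, 0] ∧ Stb d q0 f' ![1, 0, 0] M' ∧
      (HasCfg d q0 f' ![1, 0, 0] → HasCfg d q f y) ∧
      (∀ m r, f' m ∈ mulS q0 r ↔ f m ∈ mulS q r) ∧
      (∀ m, (∃ e, f' m = C e * q0) ↔ ∃ e, f m = C e * q) ∧
      (q0 = X 0 * X 2 - X 1 ^ 2 ∨ q0 = X 0 * X 2 ∨ q0 = X 1 * X 2 ∨ q0 = X 2 ^ 2) := by
    intro q0 hq hq0
    have hN' := nrm_tr F hN
    have hM' := stb_tr F hM
    have hC' := fun hC => hasCfg_tr (q := q) (f := f) (d := d) F hC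
    rw [hq] at hN' hM' hC'
    refine ⟨q0, sT g f, _, nrm_C ha hN', stb_C ha hM', fun hC => hC' (hasCfg_C ha hC), ?_, ?_, hq0⟩
    · intro m r
      rw [← mulS_C (q := q0) ha, ← hq]
      constructor
      · intro hm
        have h3 := mulS_ssub h hm
        rwa [ssub_back F, sT_apply, ssub_back F] at h3
      · intro hm
        exact mulS_ssub g hm
    · intro m
      constructor
      · rintro ⟨e, he⟩
        refine ⟨e * a⁻¹, ?_⟩
        have h3 := congrArg (ssub h) he
        have h4 : q0 = C a⁻¹ * ssub g q := by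
          rw [hq, ← mul_assoc, ← C_mul, inv_mul_cancel₀ ha, C_1, one_mul]
        rw [sT_apply, ssub_back F, h4, map_mul, map_mul, H65.ssub_C, H65.ssub_C,
          ssub_back F] at h3
        rw [h3, C_mul]
        ring
      · rintro ⟨e, he⟩
        refine ⟨e * a, ?_⟩
        rw [sT_apply, he, map_mul, H65.ssub_C, hq, C_mul]
        ring
  rcases hc with hc | hc | hc | hc
  · exact key _ hc (Or.inl rfl)
  · exact key _ hc (Or.inr (Or.inl rfl))
  · exact key _ hc (Or.inr (Or.inr (Or.inl rfl)))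
  · exact key _ hc (Or.inr (Or.inr (Or.inr rfl)))

end

end Pool.Agent.T2C.H44
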